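import Mathlib

set_option autoImplicit false

namespace Pool.Agent.V7H52.TQ

variable {ι : Type*} [Fintype ι] [DecidableEq ι]

/-- All entries are divisible by `3 ^ k`. -/
def D (k : ℕ) (X : Matrix ι ι ℤ) : Prop := ∀ i j, (3 : ℤ) ^ k ∣ X i j

omit [DecidableEq ι] in
lemma D.mul {k l : ℕ} {X Y : Matrix ι ι ℤ} (hX : D k X) (hY : D l Y) : D (k + l) (X * Y) := by
  intro i j
  rw [Matrix.mul_apply]
  apply Finset.dvd_sum
  intro a _
  rw [pow_add]
  exact mul_dvd_mul (hX i a) (hY a j)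

omit [Fintype ι] [DecidableEq ι] in
lemma D_zero (X : Matrix ι ι ℤ) : D 0 X := fun i j => by simp

omit [Fintype ι] [DecidableEq ι] in
lemma D.mono {k l : ℕ} (h : l ≤ k) {X : Matrix ι ι ℤ} (hX : D k X) : D l X :=
  fun i j => (pow_dvd_pow 3 h).trans (hX i j)

omit [Fintype ι] [DecidableEq ι] in
lemma eq_zero_of_D {X : Matrix ι ι ℤ} (h : ∀ k, 1 ≤ k → D k X) : X = 0 := by
  ext i j
  rw [Matrix.zero_apply]
  by_contra hne
  have h1 := h ((X i j).natAbs + 1) (by lia) i j
  have h2 := Int.natAbs_dvd_natAbs.2 h1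
  have h3 := Nat.le_of_dvd (Int.natAbs_pos.2 hne) h2
  rw [Int.natAbs_pow] at h3
  have h4 : (X i j).natAbs + 1 < 3 ^ ((X i j).natAbs + 1) := Nat.lt_pow_self (by norm_num)
  have h5 : Int.natAbs 3 = 3 := rfl
  rw [h5] at h3
  lia

lemma one_add_pow (X : Matrix ι ι ℤ) (h : ℕ) :
    ∃ Z : Matrix ι ι ℤ, (1 + X) ^ h = 1 + (h : ℤ) • X + X * X * Z := by
  induction h with
  | zero => exact ⟨0, by simp⟩
  | succ h ih =>
    obtain ⟨Z, hZ⟩ := ih
    refine ⟨Z + Z * X + (h : ℤ) • 1, ?_⟩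
    rw [pow_succ, hZ]
    push_cast
    simp only [add_mul, mul_add, mul_one, one_mul, add_smul, one_smul, smul_mul_assoc,
      mul_smul_comm, mul_assoc]
    abel

lemma step_coprime {X : Matrix ι ι ℤ} {h : ℕ} (hh : Nat.Coprime 3 h) (hp : (1 + X) ^ h = 1)
    (h1 : D 1 X) : X = 0 := by
  apply eq_zero_of_D
  have key : ∀ k, 1 ≤ k → D k X → D (k + 1) X := by
    intro k hk hD i j
    obtain ⟨Z, hZ⟩ := one_add_pow X h
    rw [hp] at hZ
    have h2 := (hD.mul hD).mul (D_zero Z)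
    have h3 := h2 i j
    have h4 : (h : ℤ) * X i j = -(X * X * Z) i j := by
      have h5 := congrFun (congrFun hZ i) j
      simp only [Matrix.add_apply, Matrix.smul_apply, smul_eq_mul] at h5
      linarith
    have h6 : (3 : ℤ) ^ (k + k + 0) ∣ (h : ℤ) * X i j := by
      rw [h4]
      exact (dvd_neg).2 h3
    have h7 : IsCoprime ((3 : ℤ) ^ (k + k + 0)) (h : ℤ) := by
      apply IsCoprime.pow_left
      have := Nat.isCoprime_iff_coprime.2 hh
      exact_mod_cast this
    have h8 := h7.dvd_of_dvd_mul_left h6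
    exact (pow_dvd_pow 3 (by lia)).trans h8
  intro k hk
  induction k, hk using Nat.le_induction with
  | base => exact h1
  | succ k hk ih => exact key k hk ih

lemma step_three {X : Matrix ι ι ℤ} (hp : (1 + X) ^ 3 = 1) (h1 : D 1 X) : X = 0 := by
  apply eq_zero_of_D
  have key : ∀ k, 1 ≤ k → D k X → D (k + 1) X := by
    intro k hk hD i j
    have h2 : (1 + X) ^ 3 = 1 + (3 : ℤ) • X + (3 : ℤ) • (X * X) + X * X * X := by
      rw [pow_succ, pow_two]
      simp only [add_mul, mul_add, mul_one, one_mul, mul_assoc]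
      rw [show (3 : ℤ) = 1 + 1 + 1 by norm_num]
      simp only [add_smul, one_smul]
      abel
    rw [hp] at h2
    have h3 := congrFun (congrFun h2 i) j
    simp only [Matrix.add_apply, Matrix.smul_apply, smul_eq_mul] at h3
    obtain ⟨a, ha⟩ := (hD.mul hD) i j
    obtain ⟨b, hb⟩ := ((hD.mul hD).mul hD) i j
    have h4 : (3 : ℤ) * X i j = 3 * (3 ^ (k + 1) * (-(3 ^ (k - 1) * a) - 3 ^ (2 * k - 2) * b)) := by
      have e1 : (3 : ℤ) ^ (k + 1) * 3 ^ (k - 1) = 3 ^ (k + k) := by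
        rw [← pow_add]; congr 1; lia
      have e2 : (3 : ℤ) * (3 ^ (k + 1) * 3 ^ (2 * k - 2)) = 3 ^ (k + k + k) := by
        rw [← pow_add, ← pow_succ']; congr 1; lia
      have e3 : (3 : ℤ) * X i j = -(3 * (X * X) i j) - (X * X * X) i j := by linarith
      rw [e3, ha, hb, ← e1, ← e2]
      ring
    have h5 : X i j = 3 ^ (k + 1) * (-(3 ^ (k - 1) * a) - 3 ^ (2 * k - 2) * b) := by
      have : (3 : ℤ) ≠ 0 := by norm_num
      exact mul_left_cancel₀ this h4
    exact ⟨_, h5⟩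
  intro k hk
  induction k, hk using Nat.le_induction with
  | base => exact h1
  | succ k hk ih => exact key k hk ih

lemma D_pow_sub_one {M : Matrix ι ι ℤ} (h : D 1 (M - 1)) (n : ℕ) : D 1 (M ^ n - 1) := by
  induction n with
  | zero =>
    intro i j
    simp
  | succ n ih =>
    have e : M ^ (n + 1) - 1 = (M ^ n - 1) * M + (M - 1) := by
      rw [pow_succ, sub_mul, one_mul]
      abel
    rw [e]
    intro i j
    rw [Matrix.add_apply]
    apply dvd_add _ (h i j)
    exact ((ih.mul (D_zero M)) i j)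

/-- Minkowski's lemma for the prime 3. -/
theorem minkowski {M : Matrix ι ι ℤ} (h1 : D 1 (M - 1)) {g : ℕ} (hg : g ≠ 0) (hM : M ^ g = 1) :
    M = 1 := by
  obtain ⟨a, h, hh, rfl⟩ := Nat.exists_eq_pow_mul_and_not_dvd hg 3 (by norm_num)
  clear hg
  induction a with
  | zero =>
    rw [pow_zero, one_mul] at hM
    have hc : Nat.Coprime 3 h := (Nat.Prime.coprime_iff_not_dvd Nat.prime_three).2 hh
    have := step_coprime (X := M - 1) (h := h) hc (by rw [add_sub_cancel]; exact hM) h1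
    exact sub_eq_zero.1 this
  | succ a ih =>
    apply ih
    have := step_three (X := M ^ (3 ^ a * h) - 1) (by
      rw [add_sub_cancel, ← pow_mul, ← hM]
      congr 1
      ring) (D_pow_sub_one h1 _)
    exact sub_eq_zero.1 this

end Pool.Agent.V7H52.TQ
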