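import Pool.Agent.V7H52.TQ.Liouville
import Pool.Agent.V7H52.TQ.Minkowski

set_option autoImplicit false

open Complex Metric Set Filter Topology

namespace Pool.Agent.V7H52.TQ

variable {V : Type*} [NormedAddCommGroup V] [InnerProductSpace ℂ V]
  {Γ : Subgroup (V ≃ᵃ[ℂ] V)} {Λ : Submodule ℤ V}

lemma linear_mem (hU : IsUnif Γ Λ) {A : V ≃ₗ[ℂ] V} (hA : A ∈ linearParts Γ) {l : V}
    (hl : l ∈ Λ) : A l ∈ Λ := by
  obtain ⟨γ, hγ, rfl⟩ := Subgroup.mem_map.1 hA
  have h1 : γ * AffineEquiv.constVAdd ℂ V l = AffineEquiv.constVAdd ℂ V (γ.linear l) * γ := by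
    apply AffineEquiv.ext
    intro v
    rw [AffineEquiv.coe_mul, AffineEquiv.coe_mul, Function.comp_apply, Function.comp_apply,
      AffineEquiv.constVAdd_apply, AffineEquiv.constVAdd_apply, AffineEquiv.map_vadd]
  have hlΓ := (hU.mem_iff l).1 hl
  show γ.linear l ∈ Λ
  rw [hU.mem_iff]
  have : AffineEquiv.constVAdd ℂ V (γ.linear l) = γ * AffineEquiv.constVAdd ℂ V l * γ⁻¹ := by
    rw [h1, mul_inv_cancel_right]
  rw [this]
  exact Γ.mul_mem (Γ.mul_mem hγ hlΓ) (Γ.inv_mem hγ)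

/-- The action of the linear parts on the lattice. -/
def latticeRep (hU : IsUnif Γ Λ) : linearParts Γ →* Module.End ℤ Λ where
  toFun A :=
    { toFun := fun l => ⟨(A : V ≃ₗ[ℂ] V) l, linear_mem hU A.2 l.2⟩
      map_add' := fun a b => by ext; simp
      map_smul' := fun n a => by ext; simp }
  map_one' := by ext; rfl
  map_mul' := fun A B => by ext; rfl

/-- A real linear map which vanishes on the lattice is zero. -/
lemma eq_zero_of_lattice [DiscreteTopology Λ] [IsZLattice ℝ Λ] {W : Type*} [AddCommGroup W] [Module ℝ W]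
    (φ : V →ₗ[ℝ] W) (h : ∀ l ∈ Λ, φ l = 0) (v : V) : φ v = 0 := by
  have h1 : (Submodule.span ℝ (Λ : Set V)) ≤ LinearMap.ker φ := by
    rw [Submodule.span_le]
    intro l hl
    exact h l hl
  rw [IsZLattice.span_top] at h1
  exact h1 (Submodule.mem_top)

variable [FiniteDimensional ℂ V]

/-- The order of the group of linear parts divides the order of `GL (2 n, 3)`. -/
theorem card_dvd [DiscreteTopology Λ] [IsZLattice ℝ Λ] (hU : IsUnif Γ Λ) :
    Nat.card (linearParts Γ) ∣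
      Nat.card (Matrix.GeneralLinearGroup (Fin (2 * Module.finrank ℂ V)) (ZMod 3)) := by
  classical
  have : FiniteDimensional ℝ V := FiniteDimensional.complexToReal V
  have := ZLattice.module_free ℝ Λ
  have := ZLattice.module_finite ℝ Λ
  have := hU.fin
  have hrank : Module.finrank ℤ Λ = 2 * Module.finrank ℂ V := by
    rw [ZLattice.rank ℝ Λ, finrank_real_of_complex]
  let b := Module.finBasisOfFinrankEq ℤ Λ hrank
  let φ₁ : Module.End ℤ Λ →* Matrix (Fin (2 * Module.finrank ℂ V)) (Fin (2 * Module.finrank ℂ V)) ℤ :=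
    (LinearMap.toMatrixAlgEquiv b).toAlgHom.toRingHom.toMonoidHom
  let φ₂ : Matrix (Fin (2 * Module.finrank ℂ V)) (Fin (2 * Module.finrank ℂ V)) ℤ →*
      Matrix (Fin (2 * Module.finrank ℂ V)) (Fin (2 * Module.finrank ℂ V)) (ZMod 3) :=
    (Int.castRingHom (ZMod 3)).mapMatrix.toMonoidHom
  let ψ := ((φ₂.comp φ₁).comp (latticeRep hU)).toHomUnits
  refine Subgroup.card_dvd_of_injective ψ ?_
  rw [injective_iff_map_eq_one]
  intro C hC
  have h1 : φ₂ (φ₁ (latticeRep hU C)) = 1 := by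
    have := congrArg Units.val hC
    exact this
  have h2 : D 1 (φ₁ (latticeRep hU C) - 1) := by
    intro i j
    have h3 := congrFun (congrFun h1 i) j
    have h4 : ((φ₁ (latticeRep hU C) i j : ℤ) : ZMod 3) = (1 : Matrix _ _ (ZMod 3)) i j := h3
    have h5 : (((φ₁ (latticeRep hU C) - 1) i j : ℤ) : ZMod 3) = 0 := by
      rw [Matrix.sub_apply]
      push_cast
      rw [h4]
      by_cases hij : i = j
      · subst hij; simp
      · simp [hij]
    have h6 := (ZMod.intCast_zmod_eq_zero_iff_dvd _ 3).1 h5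
    simpa using h6
  have h3 : φ₁ (latticeRep hU C) ^ Nat.card (linearParts Γ) = 1 := by
    rw [← map_pow, ← map_pow, pow_card_eq_one', map_one, map_one]
  have h4 := minkowski h2 Nat.card_pos.ne' h3
  have h5 : latticeRep hU C = 1 := by
    apply (LinearMap.toMatrixAlgEquiv b).injective
    rw [map_one]
    exact h4
  have h6 : ∀ l ∈ Λ, (C : V ≃ₗ[ℂ] V) l - l = 0 := by
    intro l hl
    have := congrArg Subtype.val (LinearMap.congr_fun h5 ⟨l, hl⟩)
    have h7 : (C : V ≃ₗ[ℂ] V) l = l := this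
    rw [h7, sub_self]
  have h7 := eq_zero_of_lattice (Λ := Λ)
    ((((C : V ≃ₗ[ℂ] V) : V →ₗ[ℂ] V) - LinearMap.id).restrictScalars ℝ) h6
  apply Subtype.ext
  apply LinearEquiv.ext
  intro v
  have h8 : (C : V ≃ₗ[ℂ] V) v - v = 0 := h7 v
  rw [sub_eq_zero] at h8
  rw [h8]
  rfl

/-- If the linear parts have a common nonzero fixed vector, then there is a unitary flat line
bundle no positive power of which is globally generated. -/
theorem converse [DiscreteTopology Λ] [IsZLattice ℝ Λ] (hU : IsUnif Γ Λ)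
    (hfix : ∃ v : V, v ≠ 0 ∧ ∀ A ∈ linearParts Γ, A v = v) :
    ∃ (e : (V ≃ᵃ[ℂ] V) → V → ℂ) (χ : V → ℂ), IsFactor Γ Λ e 0 χ ∧
      (∀ γ ∈ Γ, ∀ v, γ v = v → e γ v = 1) ∧ ∀ m, 1 ≤ m → ¬ GG Γ e m := by
  classical
  obtain ⟨w₀, hw₀, hfix⟩ := hfix
  have := hU.fin
  let _ : Fintype (linearParts Γ) := Fintype.ofFinite _
  let Q : V →ₗ[ℂ] V := ∑ A : linearParts Γ, ((A : V ≃ₗ[ℂ] V) : V →ₗ[ℂ] V)
  have hQ : ∀ v, Q v = ∑ A : linearParts Γ, (A : V ≃ₗ[ℂ] V) v := by
    intro v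
    simp [Q]
  have hQinv : ∀ γ ∈ Γ, ∀ v, Q (γ.linear v) = Q v := by
    intro γ hγ v
    rw [hQ, hQ]
    exact Equiv.sum_comp (Equiv.mulRight (⟨AffineEquiv.linearHom γ,
      Subgroup.mem_map_of_mem _ hγ⟩ : linearParts Γ)) (fun A => (A : V ≃ₗ[ℂ] V) v)
  have hQw : Q w₀ ≠ 0 := by
    have hs : (∑ A : linearParts Γ, (A : V ≃ₗ[ℂ] V) w₀) = ∑ A : linearParts Γ, w₀ :=
      Finset.sum_congr rfl (fun A _ => hfix (A : V ≃ₗ[ℂ] V) A.2)
    rw [hQ, hs, Finset.sum_const, Finset.card_univ]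
    intro h0
    rw [← Nat.cast_smul_eq_nsmul ℂ, smul_eq_zero] at h0
    rcases h0 with h0 | h0
    · have : Fintype.card (linearParts Γ) ≠ 0 := Fintype.card_ne_zero
      exact this (by exact_mod_cast h0)
    · exact hw₀ h0
  have hex : ∃ l ∈ Λ, Q l ≠ 0 := by
    by_contra hcon
    push Not at hcon
    exact hQw (eq_zero_of_lattice (Λ := Λ) (Q.restrictScalars ℝ) hcon w₀)
  obtain ⟨l₀, hl₀, hQl⟩ := hex
  set w := Q l₀ with hw
  let ℓ : V → ℝ := fun v => Real.sqrt 2 * (inner ℂ w v).re / ‖w‖ ^ 2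
  have hℓadd : ∀ u v, ℓ (u + v) = ℓ u + ℓ v := by
    intro u v
    simp only [ℓ, inner_add_right, Complex.add_re]
    ring
  have hℓ0 : ℓ 0 = 0 := by simp [ℓ]
  have hℓw : ℓ w = Real.sqrt 2 := by
    simp only [ℓ]
    rw [inner_self_eq_norm_sq_to_K]
    have hn : ‖w‖ ≠ 0 := norm_ne_zero_iff.2 hQl
    have : (((‖w‖ : ℝ) : ℂ) ^ 2).re = ‖w‖ ^ 2 := by norm_cast
    erw [this]
    field_simp
  refine ⟨fun γ _ => cexp (((2 * Real.pi * ℓ (Q (γ 0)) : ℝ) : ℂ) * I),
    fun v => cexp (((2 * Real.pi * ℓ (Q v) : ℝ) : ℂ) * I), ?_, ?_, ?_⟩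
  · refine ⟨fun γ _ => differentiable_const _, fun γ _ v => Complex.exp_ne_zero _, ?_, ?_, ?_, ?_⟩
    · intro γ hγ δ hδ v
      rw [← Complex.exp_add, ← add_mul, ← Complex.ofReal_add, AffineEquiv.coe_mul,
        Function.comp_apply, linear_decomp γ (δ 0), map_add, hQinv γ hγ, hℓadd]
      congr 3
      ring
    · exact IsSelfAdjoint.zero _
    · intro l _
      exact Complex.norm_exp_ofReal_mul_I _
    · intro l _ v
      simp
  · intro γ hγ v hv
    have h1 : γ 0 = v - γ.linear v := by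
      have := linear_decomp γ v
      rw [hv] at this
      exact eq_sub_of_add_eq' this.symm
    have h2 : Q (γ 0) = 0 := by
      rw [h1, map_sub, hQinv γ hγ, sub_self]
    simp only [h2, hℓ0, mul_zero, Complex.ofReal_zero, zero_mul, Complex.exp_zero]
  · intro m hm hgg
    have hfac : IsFactor Γ Λ (fun γ _ => cexp (((2 * Real.pi * ℓ (Q (γ 0)) : ℝ) : ℂ) * I)) 0
        (fun v => cexp (((2 * Real.pi * ℓ (Q v) : ℝ) : ℂ) * I)) := by
      refine ⟨fun γ _ => differentiable_const _, fun γ _ v => Complex.exp_ne_zero _, ?_, ?_, ?_, ?_⟩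
      · intro γ hγ δ hδ v
        rw [← Complex.exp_add, ← add_mul, ← Complex.ofReal_add, AffineEquiv.coe_mul,
          Function.comp_apply, linear_decomp γ (δ 0), map_add, hQinv γ hγ, hℓadd]
        congr 3
        ring
      · exact IsSelfAdjoint.zero _
      · intro l _
        exact Complex.norm_exp_ofReal_mul_I _
      · intro l _ v
        simp
    have h1 := torsion_of_globallyGenerated hU hfac hgg hl₀ (by simp)
    rw [← hw, hℓw, ← Complex.exp_nat_mul, Complex.exp_eq_one_iff] at h1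
    obtain ⟨n, hn⟩ := h1
    have h2 : ((m : ℝ) * Real.sqrt 2 : ℝ) = n := by
      have h3 : (2 * Real.pi * I : ℂ) ≠ 0 := Complex.two_pi_I_ne_zero
      have h4 : (((m : ℝ) * Real.sqrt 2 : ℝ) : ℂ) = ((n : ℝ) : ℂ) := by
        apply mul_right_cancel₀ h3
        push_cast at hn ⊢
        rw [← hn]
        ring
      exact_mod_cast h4
    have h3 : Irrational ((m : ℝ) * Real.sqrt 2) :=
      (irrational_sqrt_two).natCast_mul (by lia)
    rw [h2] at h3
    exact h3 ⟨n, by simp⟩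

end Pool.Agent.V7H52.TQ
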