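import Pool.Agent.V7H52.TQ.Torus

set_option autoImplicit false

open Complex Metric Set Filter Topology

namespace Pool.Agent.V7H52.TQ

variable {V : Type*} [NormedAddCommGroup V] [InnerProductSpace ℂ V]

/-- The group of the linear parts of the elements of `Γ`. -/
def linearParts (Γ : Subgroup (V ≃ᵃ[ℂ] V)) : Subgroup (V ≃ₗ[ℂ] V) :=
  Γ.map AffineEquiv.linearHom

/-- `Λ` is the lattice of the translations in `Γ`, and the group of linear parts is finite. -/
structure IsUnif (Γ : Subgroup (V ≃ᵃ[ℂ] V)) (Λ : Submodule ℤ V) : Prop where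
  mem_iff : ∀ t : V, t ∈ Λ ↔ AffineEquiv.constVAdd ℂ V t ∈ Γ
  fin : Finite (linearParts Γ)

variable [FiniteDimensional ℂ V]

/-- Factors of automorphy. -/
structure IsFactor (Γ : Subgroup (V ≃ᵃ[ℂ] V)) (Λ : Submodule ℤ V)
    (e : (V ≃ᵃ[ℂ] V) → V → ℂ) (T : V →L[ℂ] V) (χ : V → ℂ) : Prop where
  holo : ∀ γ ∈ Γ, Differentiable ℂ (e γ)
  ne_zero : ∀ γ ∈ Γ, ∀ v, e γ v ≠ 0
  cocycle : ∀ γ ∈ Γ, ∀ δ ∈ Γ, ∀ v, e (γ * δ) v = e γ (δ v) * e δ v
  selfAdjoint : IsSelfAdjoint T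
  norm_one : ∀ l ∈ Λ, ‖χ l‖ = 1
  normal : ∀ l ∈ Λ, ∀ v, e (AffineEquiv.constVAdd ℂ V l) v =
    χ l * cexp (Real.pi * inner ℂ l (T v) + Real.pi / 2 * inner ℂ l (T l))

omit [FiniteDimensional ℂ V] in
/-- Sections of the powers. -/
def IsSection (Γ : Subgroup (V ≃ᵃ[ℂ] V)) (e : (V ≃ᵃ[ℂ] V) → V → ℂ) (m : ℕ) (f : V → ℂ) : Prop :=
  Differentiable ℂ f ∧ ∀ γ ∈ Γ, ∀ v, f (γ v) = e γ v ^ m * f v

/-- Global generation of the power with exponent `m`. -/
def GG (Γ : Subgroup (V ≃ᵃ[ℂ] V)) (e : (V ≃ᵃ[ℂ] V) → V → ℂ) (m : ℕ) : Prop :=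
  ∀ v, ∃ f, IsSection Γ e m f ∧ f v ≠ 0

omit [FiniteDimensional ℂ V] in
lemma GG.mul {Γ : Subgroup (V ≃ᵃ[ℂ] V)} {e : (V ≃ᵃ[ℂ] V) → V → ℂ} {m : ℕ} (h : GG Γ e m)
    (j : ℕ) : GG Γ e (m * j) := by
  intro v
  obtain ⟨f, hf, hv⟩ := h v
  refine ⟨fun w => f w ^ j, ⟨hf.1.pow j, ?_⟩, pow_ne_zero _ hv⟩
  intro γ hγ w
  show f (γ w) ^ j = e γ w ^ (m * j) * f w ^ j
  rw [hf.2 γ hγ w, mul_pow, pow_mul]

lemma inner_comm_T {T : V →L[ℂ] V} (hT : IsSelfAdjoint T) (v w : V) :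
    inner ℂ w (T v) = (starRingEnd ℂ) (inner ℂ v (T w)) := by
  rw [inner_conj_symm]
  have := hT.isSymmetric
  exact (this w v).symm

lemma exists_sqrt {T : V →L[ℂ] V} (hT : IsSelfAdjoint T)
    (hn : ∀ v, 0 ≤ (inner ℂ v (T v)).re) :
    ∃ P : V →L[ℂ] V, ∀ v w, inner ℂ v (T w) = inner ℂ (P v) (P w) := by
  have hp : T.IsPositive := by
    rw [ContinuousLinearMap.isPositive_def']
    refine ⟨hT, fun x => ?_⟩
    rw [ContinuousLinearMap.reApplyInnerSelf_apply]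
    have h1 := hn x
    rw [← inner_conj_symm, Complex.conj_re] at h1
    exact h1
  have h0 : 0 ≤ T := (ContinuousLinearMap.nonneg_iff_isPositive T).2 hp
  obtain ⟨P, hP⟩ := CStarAlgebra.nonneg_iff_eq_star_mul_self.mp h0
  refine ⟨P, fun v w => ?_⟩
  rw [hP, ContinuousLinearMap.star_eq_adjoint, mul_apply_eq_comp,
    ContinuousLinearMap.adjoint_inner_right]

section basic

variable {Γ : Subgroup (V ≃ᵃ[ℂ] V)} {Λ : Submodule ℤ V} {e : (V ≃ᵃ[ℂ] V) → V → ℂ}
  {T : V →L[ℂ] V} {χ : V → ℂ}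

lemma IsFactor.char_ne_zero (h : IsFactor Γ Λ e T χ) {l : V} (hl : l ∈ Λ) : χ l ≠ 0 := by
  intro h0
  have := h.norm_one l hl
  rw [h0, norm_zero] at this
  exact zero_ne_one this

lemma IsFactor.char_add (hU : IsUnif Γ Λ) (h : IsFactor Γ Λ e T χ) {l m : V} (hl : l ∈ Λ)
    (hm : m ∈ Λ) :
    χ (l + m) = χ l * χ m * cexp (Real.pi * I * (inner ℂ l (T m)).im) := by
  have h1 := h.cocycle _ ((hU.mem_iff l).1 hl) _ ((hU.mem_iff m).1 hm) 0
  have h2 : AffineEquiv.constVAdd ℂ V l * AffineEquiv.constVAdd ℂ V m =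
      AffineEquiv.constVAdd ℂ V (l + m) := (AffineEquiv.constVAdd_add ℂ V l m).symm
  rw [h2, h.normal _ (Λ.add_mem hl hm), h.normal _ hl, h.normal _ hm] at h1
  have h3 : (AffineEquiv.constVAdd ℂ V m) 0 = m := by simp
  rw [h3, map_zero, inner_zero_right, inner_zero_right, mul_zero, zero_add, zero_add] at h1
  have h4 := inner_comm_T h.selfAdjoint l m
  have h5 : inner ℂ (l + m) (T (l + m)) = inner ℂ l (T l) + inner ℂ l (T m) +
      (starRingEnd ℂ) (inner ℂ l (T m)) + inner ℂ m (T m) := by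
    rw [map_add, inner_add_left, inner_add_right, inner_add_right, h4]
    ring
  rw [h5] at h1
  have h6 : (Real.pi : ℂ) * I * (inner ℂ l (T m)).im =
      (Real.pi / 2 : ℂ) * (inner ℂ l (T m) - (starRingEnd ℂ) (inner ℂ l (T m))) := by
    rw [Complex.sub_conj]
    push_cast
    ring
  set A := inner ℂ l (T l)
  set B := inner ℂ l (T m)
  set C := inner ℂ m (T m)
  set B' := (starRingEnd ℂ) B
  have h7 : cexp ((Real.pi / 2 : ℂ) * (A + B + B' + C)) ≠ 0 := Complex.exp_ne_zero _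
  apply mul_right_cancel₀ h7
  rw [h1, h6]
  have h8 : cexp (Real.pi * B + Real.pi / 2 * A) * cexp (Real.pi / 2 * C) =
      cexp (Real.pi / 2 * (B - B')) * cexp ((Real.pi / 2 : ℂ) * (A + B + B' + C)) := by
    rw [← Complex.exp_add, ← Complex.exp_add]
    congr 1
    ring
  calc χ l * cexp (Real.pi * B + Real.pi / 2 * A) * (χ m * cexp (Real.pi / 2 * C))
      = χ l * χ m * (cexp (Real.pi * B + Real.pi / 2 * A) * cexp (Real.pi / 2 * C)) := by ring
    _ = _ := by rw [h8]; ring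

lemma IsFactor.integral (hU : IsUnif Γ Λ) (h : IsFactor Γ Λ e T χ) {l m : V} (hl : l ∈ Λ)
    (hm : m ∈ Λ) : ∃ k : ℤ, (inner ℂ l (T m)).im = k := by
  have h1 := h.char_add hU hl hm
  have h2 := h.char_add hU hm hl
  rw [add_comm m l, h1] at h2
  have h4 := inner_comm_T h.selfAdjoint l m
  rw [h4, Complex.conj_im] at h2
  set b := (inner ℂ l (T m)).im
  have n1 := h.char_ne_zero hl
  have n2 := h.char_ne_zero hm
  have h5 : cexp (Real.pi * I * b) = cexp (Real.pi * I * ((-b : ℝ) : ℂ)) := by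
    have h6 : χ l * χ m ≠ 0 := mul_ne_zero n1 n2
    apply mul_left_cancel₀ h6
    rw [h2]; ring
  have h6 : cexp (2 * Real.pi * I * b) = 1 := by
    have : (2 : ℂ) * Real.pi * I * b = Real.pi * I * b - Real.pi * I * ((-b : ℝ) : ℂ) := by
      push_cast; ring
    rw [this, Complex.exp_sub, h5, div_self (Complex.exp_ne_zero _)]
  rw [Complex.exp_eq_one_iff] at h6
  obtain ⟨n, hn⟩ := h6
  refine ⟨n, ?_⟩
  have h7 : (2 * Real.pi * I : ℂ) ≠ 0 := Complex.two_pi_I_ne_zero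
  have h8 : (b : ℂ) = n := by
    apply mul_left_cancel₀ h7
    rw [hn]; ring
  exact_mod_cast h8

lemma IsFactor.normal' (h : IsFactor Γ Λ e T χ) {l : V} (hl : l ∈ Λ) (v : V) :
    e (AffineEquiv.constVAdd ℂ V l) v =
    χ l * cexp (Real.pi * inner ℂ l (T v) + Real.pi / 2 * inner ℂ l (T l)) := h.normal l hl v

/-- A nonzero theta function of the power `m`, if the power of the character is trivial on the
kernel. -/
lemma IsFactor.exists_theta [DiscreteTopology Λ] [IsZLattice ℝ Λ]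
    (hU : IsUnif Γ Λ) (h : IsFactor Γ Λ e T χ)
    (hn : ∀ v, 0 ≤ (inner ℂ v (T v)).re) {m : ℕ} (hm : 1 ≤ m)
    (hker : ∀ l ∈ Λ, T l = 0 → χ l ^ m = 1) :
    ∃ f : V → ℂ, Differentiable ℂ f ∧ (∃ v, f v ≠ 0) ∧ ∀ l ∈ Λ, ∀ v,
      f (v + l) = (χ l * cexp (Real.pi * inner ℂ l (T v) + Real.pi / 2 * inner ℂ l (T l))) ^ m *
        f v := by
  have hm0 : (m : ℂ) ≠ 0 := by
    have : m ≠ 0 := by lia
    exact_mod_cast this
  have hT' : IsSelfAdjoint ((m : ℂ) • T) := by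
    rw [isSelfAdjoint_iff, star_smul, h.selfAdjoint.star_eq]
    simp
  obtain ⟨P, hP⟩ := exists_sqrt hT' (by
    intro v
    rw [FunLike.coe_smul, Pi.smul_apply, inner_smul_right]
    have := hn v
    have h2 : ((m : ℂ) * inner ℂ v (T v)).re = m * (inner ℂ v (T v)).re := by simp
    rw [h2]
    positivity)
  have hP' : ∀ v w, (m : ℂ) * inner ℂ v (T w) = inner ℂ (P v) (P w) := by
    intro v w
    rw [← hP, FunLike.coe_smul, Pi.smul_apply, inner_smul_right]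
  have him : ∀ v w, (inner ℂ (P v) (P w)).im = m * (inner ℂ v (T w)).im := by
    intro v w
    rw [← hP']; simp
  obtain ⟨f, hf1, hf2, hf3⟩ := exists_section Λ P
    (by
      intro l hl k hk
      obtain ⟨j, hj⟩ := h.integral hU hl hk
      refine ⟨m * j, ?_⟩
      rw [him, hj]
      push_cast
      ring)
    (fun l => χ l ^ m)
    (by
      intro l hl
      rw [norm_pow, h.norm_one l hl, one_pow])
    (by
      intro l hl k hk
      rw [h.char_add hU hl hk, him, mul_pow, mul_pow, ← Complex.exp_nat_mul]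
      congr 2
      push_cast
      ring)
    (by
      intro l hl hPl
      apply hker l hl
      have : ∀ v, inner ℂ (T l) v = 0 := by
        intro v
        have h1 := hP' l v
        rw [hPl, inner_zero_left, mul_eq_zero] at h1
        rcases h1 with h1 | h1
        · exact absurd h1 hm0
        · have := h.selfAdjoint.isSymmetric l v
          exact this.trans h1
      exact inner_self_eq_zero.1 (this (T l)))
  refine ⟨f, hf1, hf2, fun l hl v => ?_⟩
  rw [hf3 l hl v, mul_pow, ← Complex.exp_nat_mul]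
  congr 3
  have h1 : ((Real.pi / 2 * ‖P l‖ ^ 2 : ℝ) : ℂ) = Real.pi / 2 * inner ℂ (P l) (P l) := by
    rw [inner_self_eq_norm_sq_to_K]
    simp
  rw [h1, ← hP', ← hP']
  ring

end basic

end Pool.Agent.V7H52.TQ
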