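import Pool.Agent.V7H52.TQ.Lagr

set_option autoImplicit false

open Complex Metric Set Filter Topology

namespace Pool.Agent.V7H52.TQ

variable {V : Type*} [NormedAddCommGroup V] [InnerProductSpace ℂ V] [FiniteDimensional ℂ V]
  {Γ : Subgroup (V ≃ᵃ[ℂ] V)} {Λ : Submodule ℤ V} {e : (V ≃ᵃ[ℂ] V) → V → ℂ}
  {T : V →L[ℂ] V} {χ : V → ℂ}

/-- The product of a power of a factor and a factor. -/
lemma IsFactor.pow_mul (h : IsFactor Γ Λ e T χ) {e' : (V ≃ᵃ[ℂ] V) → V → ℂ}
    {T' : V →L[ℂ] V} {χ' : V → ℂ} (h' : IsFactor Γ Λ e' T' χ') (m : ℕ) :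
    IsFactor Γ Λ (fun γ v => e γ v ^ m * e' γ v) ((m : ℂ) • T + T') (fun v => χ v ^ m * χ' v) := by
  refine ⟨?_, ?_, ?_, ?_, ?_, ?_⟩
  · intro γ hγ
    exact ((h.holo γ hγ).pow m).mul (h'.holo γ hγ)
  · intro γ hγ v
    exact mul_ne_zero (pow_ne_zero _ (h.ne_zero γ hγ v)) (h'.ne_zero γ hγ v)
  · intro γ hγ δ hδ v
    rw [h.cocycle γ hγ δ hδ, h'.cocycle γ hγ δ hδ]
    ring
  · apply IsSelfAdjoint.add _ h'.selfAdjoint
    rw [isSelfAdjoint_iff, star_smul, h.selfAdjoint.star_eq]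
    simp
  · intro l hl
    rw [norm_mul, norm_pow, h.norm_one l hl, h'.norm_one l hl]
    simp
  · intro l hl v
    rw [h.normal l hl, h'.normal l hl, mul_pow, ← Complex.exp_nat_mul]
    have e1 : ∀ w, inner ℂ l (((m : ℂ) • T + T') w) = m * inner ℂ l (T w) + inner ℂ l (T' w) := by
      intro w
      rw [FunLike.coe_add, Pi.add_apply, FunLike.coe_smul, Pi.smul_apply, inner_add_right,
        inner_smul_right]
    rw [e1, e1]
    have e2 : cexp (Real.pi * (m * inner ℂ l (T v) + inner ℂ l (T' v)) +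
        Real.pi / 2 * (m * inner ℂ l (T l) + inner ℂ l (T' l))) =
        cexp (m * (Real.pi * inner ℂ l (T v) + Real.pi / 2 * inner ℂ l (T l))) *
        cexp (Real.pi * inner ℂ l (T' v) + Real.pi / 2 * inner ℂ l (T' l)) := by
      rw [← Complex.exp_add]
      congr 1
      ring
    rw [e2]
    ring

lemma IsFactor.char_zero (hU : IsUnif Γ Λ) (h : IsFactor Γ Λ e T χ) : χ 0 = 1 := by
  have h1 := h.char_add hU Λ.zero_mem Λ.zero_mem
  rw [add_zero, map_zero, inner_zero_right, Complex.zero_im, Complex.ofReal_zero, mul_zero,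
    Complex.exp_zero, mul_one] at h1
  have h2 := h.char_ne_zero Λ.zero_mem
  have h3 : χ 0 * χ 0 = 1 * χ 0 := by rw [one_mul]; exact h1.symm
  exact mul_right_cancel₀ h2 h3

/-- Nefness through semiampleness of twists with a positive bundle. -/
theorem nef_iff [DiscreteTopology Λ] [IsZLattice ℝ Λ] (hU : IsUnif Γ Λ)
    (h : IsFactor Γ Λ e T χ) {e' : (V ≃ᵃ[ℂ] V) → V → ℂ}
    {T' : V →L[ℂ] V} {χ' : V → ℂ} (h' : IsFactor Γ Λ e' T' χ')
    (hpos : ∀ v, v ≠ 0 → 0 < (inner ℂ v (T' v)).re) :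
    (∀ v, 0 ≤ (inner ℂ v (T v)).re) ↔
      ∀ m, ∃ k, 1 ≤ k ∧ GG Γ (fun γ v => e γ v ^ m * e' γ v) k := by
  have e1 : ∀ (m : ℕ) (v : V), (inner ℂ v (((m : ℂ) • T + T') v)).re =
      m * (inner ℂ v (T v)).re + (inner ℂ v (T' v)).re := by
    intro m v
    rw [FunLike.coe_add, Pi.add_apply, FunLike.coe_smul, Pi.smul_apply, inner_add_right,
      inner_smul_right, Complex.add_re]
    simp
  constructor
  · intro hn m
    have hf := h.pow_mul h' m
    have hn' : ∀ v, 0 ≤ (inner ℂ v (((m : ℂ) • T + T') v)).re := by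
      intro v
      rw [e1]
      by_cases hv : v = 0
      · subst hv; simp
      · have := hpos v hv
        have := hn v
        positivity
    have hk : ∀ l ∈ Λ, ((m : ℂ) • T + T') l = 0 → (χ l ^ m * χ' l) ^ 1 = 1 := by
      intro l hl hTl
      have : l = 0 := by
        by_contra hl0
        have h1 := e1 m l
        rw [hTl, inner_zero_right, Complex.zero_re] at h1
        have h2 := hpos l hl0
        have h3 := hn l
        have h4 : 0 ≤ (m : ℝ) * (inner ℂ l (T l)).re := by positivity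
        linarith
      subst this
      exact by rw [pow_one, hf.char_zero hU]
    refine ⟨2 * 1 * Nat.card (linearParts Γ), ?_, hf.globallyGenerated hU hn' le_rfl hk⟩
    have := hU.fin
    have : 0 < Nat.card (linearParts Γ) := Nat.card_pos
    lia
  · intro hs v
    by_contra hneg
    push Not at hneg
    obtain ⟨m, hm⟩ := exists_nat_gt ((inner ℂ v (T' v)).re / (-(inner ℂ v (T v)).re))
    obtain ⟨k, hk, hgg⟩ := hs m
    have h1 := nef_of_globallyGenerated hU (h.pow_mul h' m) hk hgg v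
    rw [e1] at h1
    rw [div_lt_iff₀ (by linarith)] at hm
    linarith

/-- The uniform statements. -/
theorem uniform [DiscreteTopology Λ] [IsZLattice ℝ Λ] (hU : IsUnif Γ Λ)
    (h : IsFactor Γ Λ e T χ) (hn : ∀ v, 0 ≤ (inner ℂ v (T v)).re)
    (hker : ∀ l ∈ Λ, T l = 0 → χ l ^ Nat.card (linearParts Γ) = 1) :
    GG Γ e (2 * Nat.card (linearParts Γ) ^ 2) ∧
    GG Γ e (2 * Nat.card (Matrix.GeneralLinearGroup (Fin (2 * Module.finrank ℂ V)) (ZMod 3)) ^ 2) := by
  have := hU.fin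
  have hpos : 0 < Nat.card (linearParts Γ) := Nat.card_pos
  have h1 := h.globallyGenerated hU hn hpos hker
  have h2 : 2 * Nat.card (linearParts Γ) * Nat.card (linearParts Γ) =
      2 * Nat.card (linearParts Γ) ^ 2 := by ring
  rw [h2] at h1
  refine ⟨h1, ?_⟩
  obtain ⟨c, hc⟩ := card_dvd hU
  rw [hc]
  have h3 := h1.mul (c ^ 2)
  have h4 : 2 * Nat.card (linearParts Γ) ^ 2 * c ^ 2 = 2 * (Nat.card (linearParts Γ) * c) ^ 2 := by
    ring
  rw [h4] at h3
  exact h3

omit [FiniteDimensional ℂ V] in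
/-- The flat twist does not change the values at fixed points. -/
lemma twist_fixed (ℓ : V →ₗ[ℝ] ℝ) (hℓ : ∀ A ∈ linearParts Γ, ∀ v, ℓ (A v) = ℓ v)
    {γ : V ≃ᵃ[ℂ] V} (hγ : γ ∈ Γ) {v : V} (hv : γ v = v) :
    twist ℓ e γ v = e γ v := by
  have h1 : γ 0 = v - γ.linear v := by
    have := linear_decomp γ v
    rw [hv] at this
    exact eq_sub_of_add_eq' this.symm
  have h2 : ℓ (γ 0) = 0 := by
    rw [h1, map_sub]
    have := hℓ _ (Subgroup.mem_map_of_mem AffineEquiv.linearHom hγ) v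
    have h3 : ℓ (γ.linear v) = ℓ v := this
    rw [h3, sub_self]
  unfold twist
  rw [h2, mul_zero, Complex.ofReal_zero, zero_mul, Complex.exp_zero, mul_one]

end Pool.Agent.V7H52.TQ
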