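import Pool.Agent.V7H52.TQ.Twist

set_option autoImplicit false

open Complex Metric Set Filter Topology

namespace Pool.Agent.V7H52.TQ

variable {V : Type*} [NormedAddCommGroup V] [InnerProductSpace ℂ V] [FiniteDimensional ℂ V]
  {Γ : Subgroup (V ≃ᵃ[ℂ] V)} {Λ : Submodule ℤ V} {e : (V ≃ᵃ[ℂ] V) → V → ℂ}
  {T : V →L[ℂ] V} {χ : V → ℂ}

/-- Sections are constant along the kernel. -/
theorem section_constant [DiscreteTopology Λ] [IsZLattice ℝ Λ] (hU : IsUnif Γ Λ)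
    (h : IsFactor Γ Λ e T χ) {m : ℕ} {f : V → ℂ} (hf : IsSection Γ e m f) {k : V}
    (hk : T k = 0) (v : V) : f (v + k) = f v := by
  obtain ⟨hf1, hf2⟩ := hf
  obtain ⟨C, hC⟩ := section_bound h m hf1.continuous (fun l hl v => by
    have := hf2 _ ((hU.mem_iff l).1 hl) v
    rw [AffineEquiv.constVAdd_apply, vadd_eq_add, add_comm] at this
    exact this)
  have hd : Differentiable ℂ (fun z : ℂ => f (v + z • k)) :=
    hf1.comp ((differentiable_const v).add (differentiable_id.smul_const k))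
  have hq : ∀ z : ℂ, (inner ℂ (v + z • k) (T (v + z • k))).re = (inner ℂ v (T v)).re := by
    intro z
    have h1 : inner ℂ (z • k) (T v) = 0 := by
      have := h.selfAdjoint.isSymmetric (z • k) v
      refine this.symm.trans ?_
      show inner ℂ (T (z • k)) v = 0
      rw [map_smul, hk, smul_zero, inner_zero_left]
    rw [map_add, map_smul, hk, smul_zero, add_zero, inner_add_left, h1, add_zero]
  have hb : Bornology.IsBounded (range (fun z : ℂ => f (v + z • k))) := by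
    rw [isBounded_iff_forall_norm_le]
    refine ⟨C * Real.exp (Real.pi * m / 2 * (inner ℂ v (T v)).re), ?_⟩
    rintro _ ⟨z, rfl⟩
    have := hC (v + z • k)
    rw [hq] at this
    exact this
  have := hd.apply_eq_apply_of_bounded hb 1 0
  simpa using this

/-- The kernel of a nonnegative form is invariant. -/
lemma kernel_invariant [DiscreteTopology Λ] [IsZLattice ℝ Λ] (hU : IsUnif Γ Λ)
    (h : IsFactor Γ Λ e T χ) (hn : ∀ v, 0 ≤ (inner ℂ v (T v)).re)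
    {A : V ≃ₗ[ℂ] V} (hA : A ∈ linearParts Γ) {v : V} (hv : T v = 0) : T (A v) = 0 := by
  obtain ⟨γ, hγ, rfl⟩ := Subgroup.mem_map.1 hA
  obtain ⟨P, hP⟩ := exists_sqrt h.selfAdjoint hn
  obtain ⟨h3, -⟩ := factor_shape hU h hγ v
  show T (γ.linear v) = 0
  rw [hv, inner_zero_right, Complex.zero_re, hP, inner_self_eq_norm_sq_to_K] at h3
  have h6 : P (γ.linear v) = 0 := by
    rw [← norm_eq_zero]
    have h7 : (‖P (γ.linear v)‖ : ℝ) ^ 2 = 0 := by
      rw [← h3]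
      norm_cast
    exact pow_eq_zero_iff (two_ne_zero) |>.1 h7
  have h7 : ∀ w, inner ℂ (T (γ.linear v)) w = 0 := by
    intro w
    have := h.selfAdjoint.isSymmetric (γ.linear v) w
    refine this.trans ?_
    show inner ℂ (γ.linear v) (T w) = 0
    rw [hP, h6, inner_zero_left]
  exact inner_self_eq_zero.1 (h7 _)

omit [FiniteDimensional ℂ V] in
lemma isotropic_finrank [FiniteDimensional ℂ V] (σ : V →ₗ[ℂ] V →ₗ[ℂ] ℂ)
    (hnd : ∀ v, (∀ w, σ v w = 0) → v = 0) (W : Submodule ℂ V)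
    (hW : ∀ v ∈ W, ∀ w ∈ W, σ v w = 0) : 2 * Module.finrank ℂ W ≤ Module.finrank ℂ V := by
  have h1 : Module.finrank ℂ W + Module.finrank ℂ W.dualAnnihilator = Module.finrank ℂ V :=
    Subspace.finrank_add_finrank_dualAnnihilator_eq W
  let θ : W →ₗ[ℂ] W.dualAnnihilator :=
    (σ.domRestrict W).codRestrict W.dualAnnihilator (by
      intro w
      rw [Submodule.mem_dualAnnihilator]
      intro v hv
      exact hW w w.2 v hv)
  have hθ : Function.Injective θ := by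
    rw [injective_iff_map_eq_zero]
    intro w hw
    have : σ w = 0 := congrArg Subtype.val hw
    ext
    exact hnd w (fun v => by rw [this]; rfl)
  have h2 := LinearMap.finrank_le_finrank_of_injective hθ
  lia

/-- An invariant subspace of a representation with a unique invariant alternating form, which is
nondegenerate, is zero, everything, or Lagrangian. -/
theorem lagrangian (G : Subgroup (V ≃ₗ[ℂ] V)) [Finite G] (σ : V →ₗ[ℂ] V →ₗ[ℂ] ℂ)
    (halt : ∀ v, σ v v = 0)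
    (hnd : ∀ v, (∀ w, σ v w = 0) → v = 0) (hinv : ∀ A ∈ G, ∀ v w, σ (A v) (A w) = σ v w)
    (huniq : ∀ τ : V →ₗ[ℂ] V →ₗ[ℂ] ℂ, (∀ v, τ v v = 0) →
      (∀ A ∈ G, ∀ v w, τ (A v) (A w) = τ v w) → ∃ c : ℂ, ∀ v w, τ v w = c * σ v w)
    (K : Submodule ℂ V) (hK : ∀ A ∈ G, ∀ v ∈ K, A v ∈ K) :
    K = ⊥ ∨ K = ⊤ ∨ (2 * Module.finrank ℂ K = Module.finrank ℂ V ∧
      ∀ v ∈ K, ∀ w ∈ K, σ v w = 0) := by
  classical
  by_cases hb : K = ⊥
  · exact Or.inl hb
  by_cases ht : K = ⊤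
  · exact Or.inr (Or.inl ht)
  refine Or.inr (Or.inr ?_)
  let _ : Fintype G := Fintype.ofFinite _
  obtain ⟨p, hp⟩ := LinearMap.exists_leftInverse_of_injective K.subtype (Submodule.ker_subtype K)
  have hpk : ∀ k (hk : k ∈ K), (p k : V) = k := by
    intro k hk
    have := LinearMap.congr_fun hp ⟨k, hk⟩
    exact congrArg Subtype.val this
  let S : V →ₗ[ℂ] V := ∑ A : G, (((A⁻¹ : G) : V ≃ₗ[ℂ] V) : V →ₗ[ℂ] V) ∘ₗ
    (K.subtype ∘ₗ p) ∘ₗ ((A : V ≃ₗ[ℂ] V) : V →ₗ[ℂ] V)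
  have hS : ∀ v, S v = ∑ A : G, ((A⁻¹ : G) : V ≃ₗ[ℂ] V) (p ((A : V ≃ₗ[ℂ] V) v) : V) := by
    intro v
    simp [S]
  have hmulapp : ∀ (A B : G) (v : V), ((A * B : G) : V ≃ₗ[ℂ] V) v =
      (A : V ≃ₗ[ℂ] V) ((B : V ≃ₗ[ℂ] V) v) := fun A B v => rfl
  have hg0 : ((Fintype.card G : ℕ) : ℂ) ≠ 0 := by exact_mod_cast Fintype.card_ne_zero
  let π : V →ₗ[ℂ] V := ((Fintype.card G : ℂ)⁻¹) • S
  have hπ : ∀ v, π v = ((Fintype.card G : ℂ)⁻¹) • S v := fun v => rfl
  have hπK : ∀ v, π v ∈ K := by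
    intro v
    rw [hπ, hS]
    apply K.smul_mem
    apply K.sum_mem
    intro A _
    exact hK _ (A⁻¹ : G).2 _ (p _).2
  have hπid : ∀ k ∈ K, π k = k := by
    intro k hk
    have h1 : ∀ A : G, ((A⁻¹ : G) : V ≃ₗ[ℂ] V) (p ((A : V ≃ₗ[ℂ] V) k) : V) = k := by
      intro A
      rw [hpk _ (hK A A.2 k hk), ← hmulapp, inv_mul_cancel]
      rfl
    rw [hπ, hS, Finset.sum_congr rfl (fun A _ => h1 A), Finset.sum_const, Finset.card_univ,
      ← Nat.cast_smul_eq_nsmul ℂ, smul_smul, inv_mul_cancel₀ hg0, one_smul]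
  have hπG : ∀ B ∈ G, ∀ v, π (B v) = B (π v) := by
    intro B hB v
    rw [hπ, hπ, map_smul]
    congr 1
    rw [hS, hS, map_sum]
    have := Equiv.sum_comp (Equiv.mulRight (⟨B, hB⟩ : G))
      (fun A : G => B (((A⁻¹ : G) : V ≃ₗ[ℂ] V) (p ((A : V ≃ₗ[ℂ] V) v) : V)))
    rw [← this]
    apply Finset.sum_congr rfl
    intro A _
    have h1 : ((A * ⟨B, hB⟩ : G) : V ≃ₗ[ℂ] V) v = (A : V ≃ₗ[ℂ] V) (B v) := rfl
    have h2 : ∀ w : V, B ((((A * ⟨B, hB⟩ : G)⁻¹ : G) : V ≃ₗ[ℂ] V) w) =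
        ((A⁻¹ : G) : V ≃ₗ[ℂ] V) w := by
      intro w
      have h3 : B ((((A * ⟨B, hB⟩ : G)⁻¹ : G) : V ≃ₗ[ℂ] V) w) =
          (((⟨B, hB⟩ : G) * (A * ⟨B, hB⟩ : G)⁻¹ : G) : V ≃ₗ[ℂ] V) w := rfl
      rw [h3]
      congr 2
      group
    show ((A⁻¹ : G) : V ≃ₗ[ℂ] V) (p ((A : V ≃ₗ[ℂ] V) (B v)) : V) =
      B ((((A * ⟨B, hB⟩ : G)⁻¹ : G) : V ≃ₗ[ℂ] V) (p (((A * ⟨B, hB⟩ : G) : V ≃ₗ[ℂ] V) v) : V))
    rw [h2, h1]
  let ρ : V →ₗ[ℂ] V := LinearMap.id - π
  have hρ : ∀ v, ρ v = v - π v := fun v => rfl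
  have hρG : ∀ B ∈ G, ∀ v, ρ (B v) = B (ρ v) := by
    intro B hB v
    rw [hρ, hρ, hπG B hB, map_sub]
  have hππ : ∀ v, π (ρ v) = 0 := by
    intro v
    rw [hρ, map_sub, hπid _ (hπK v), sub_self]
  have hρK : ∀ k ∈ K, ρ k = 0 := by
    intro k hk
    rw [hρ, hπid k hk, sub_self]
  -- the two forms
  obtain ⟨c₁, hc₁⟩ := huniq (σ.compl₁₂ π π) (fun v => by simp [halt]) (by
    intro A hA v w
    simp only [LinearMap.compl₁₂_apply]
    rw [hπG A hA, hπG A hA, hinv A hA])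
  obtain ⟨c₂, hc₂⟩ := huniq (σ.compl₁₂ ρ ρ) (fun v => by simp [halt]) (by
    intro A hA v w
    simp only [LinearMap.compl₁₂_apply]
    rw [hρG A hA, hρG A hA, hinv A hA])
  simp only [LinearMap.compl₁₂_apply] at hc₁ hc₂
  have hc₁0 : c₁ = 0 := by
    obtain ⟨v, hv⟩ : ∃ v, v ∉ K := by
      by_contra hcon
      push Not at hcon
      exact ht (Submodule.eq_top_iff'.2 hcon)
    by_contra hne
    have h1 : ρ v = 0 := by
      apply hnd
      intro w
      have h2 := hc₁ (ρ v) w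
      rw [hππ, map_zero, LinearMap.zero_apply] at h2
      rcases mul_eq_zero.1 h2.symm with h3 | h3
      · exact absurd h3 hne
      · exact h3
    apply hv
    rw [hρ, sub_eq_zero] at h1
    rw [h1]
    exact hπK v
  have hc₂0 : c₂ = 0 := by
    obtain ⟨k, hk, hk0⟩ := (Submodule.ne_bot_iff K).1 hb
    by_contra hne
    apply hk0
    apply hnd
    intro w
    have h2 := hc₂ k w
    rw [hρK k hk, map_zero, LinearMap.zero_apply] at h2
    rcases mul_eq_zero.1 h2.symm with h3 | h3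
    · exact absurd h3 hne
    · exact h3
  have hKiso : ∀ v ∈ K, ∀ w ∈ K, σ v w = 0 := by
    intro v hv w hw
    have := hc₁ v w
    rw [hπid v hv, hπid w hw, hc₁0, zero_mul] at this
    exact this
  have hCiso : ∀ v ∈ LinearMap.range ρ, ∀ w ∈ LinearMap.range ρ, σ v w = 0 := by
    rintro _ ⟨v, rfl⟩ _ ⟨w, rfl⟩
    rw [hc₂, hc₂0, zero_mul]
  have d1 := isotropic_finrank σ hnd K hKiso
  have d2 := isotropic_finrank σ hnd _ hCiso
  have d3 : Module.finrank ℂ V ≤ Module.finrank ℂ K + Module.finrank ℂ (LinearMap.range ρ) := by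
    have h1 : K ⊔ LinearMap.range ρ = ⊤ := by
      rw [Submodule.eq_top_iff']
      intro v
      have : v = π v + ρ v := by rw [hρ]; abel
      rw [this]
      exact Submodule.add_mem_sup (hπK v) ⟨v, rfl⟩
    have h2 := Submodule.finrank_add_le_finrank_add_finrank K (LinearMap.range ρ)
    rw [h1, finrank_top] at h2
    exact h2
  exact ⟨by lia, hKiso⟩

end Pool.Agent.V7H52.TQ
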