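import Pool.Agent.V7H52.TQ.Norm

set_option autoImplicit false

open Complex Metric Set Filter Topology

namespace Pool.Agent.V7H52.TQ

/-- An entire function with Gaussian decay is zero. -/
lemma liouville_gauss {h : ℂ → ℂ} (hd : Differentiable ℂ h) {C B D : ℝ} (hD : 0 < D)
    (hb : ∀ z, ‖h z‖ ≤ C * Real.exp (B * ‖z‖ - D * ‖z‖ ^ 2)) : ∀ z, h z = 0 := by
  have hC : 0 ≤ C := by
    have := (norm_nonneg _).trans (hb 0)
    simpa using this
  have hbound : ∀ t : ℝ, B * t - D * t ^ 2 ≤ B ^ 2 / (4 * D) := by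
    intro t
    have h1 : B * t - D * t ^ 2 = B ^ 2 / (4 * D) - D * (t - B / (2 * D)) ^ 2 := by
      field_simp
      ring
    rw [h1]
    have := mul_nonneg hD.le (sq_nonneg (t - B / (2 * D)))
    linarith
  have hbd : Bornology.IsBounded (range h) := by
    rw [isBounded_iff_forall_norm_le]
    refine ⟨C * Real.exp (B ^ 2 / (4 * D)), ?_⟩
    rintro _ ⟨z, rfl⟩
    refine (hb z).trans ?_
    gcongr
    exact hbound _
  have hconst : ∀ z w, h z = h w := fun z w => hd.apply_eq_apply_of_bounded hbd z w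
  have hlim : Tendsto (fun t : ℝ => C * Real.exp (B * t - D * t ^ 2)) atTop (𝓝 (C * 0)) := by
    apply Tendsto.const_mul
    apply Real.tendsto_exp_atBot.comp
    have h1 : (fun t : ℝ => B * t - D * t ^ 2) = fun t : ℝ => t * (B - D * t) := by
      funext t; ring
    rw [h1]
    apply Tendsto.atTop_mul_atBot₀ tendsto_id
    have h2 : Tendsto (fun t : ℝ => D * t) atTop atTop := tendsto_id.const_mul_atTop hD
    have h3 : (fun t : ℝ => B - D * t) = fun t : ℝ => B + -(D * t) := by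
      funext t; ring
    rw [h3]
    exact tendsto_atBot_add_const_left _ _ (tendsto_neg_atTop_atBot.comp h2)
  rw [mul_zero] at hlim
  intro z
  rw [hconst z 0, ← norm_eq_zero]
  apply le_antisymm _ (norm_nonneg _)
  refine ge_of_tendsto hlim ?_
  filter_upwards [eventually_ge_atTop (0 : ℝ)] with t ht
  have := hb (t : ℂ)
  rw [hconst _ 0, Complex.norm_real, Real.norm_eq_abs, abs_of_nonneg ht] at this
  exact this

variable {V : Type*} [NormedAddCommGroup V] [InnerProductSpace ℂ V] [FiniteDimensional ℂ V]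

lemma periodic_bounded (Λ : Submodule ℤ V) [DiscreteTopology Λ] [IsZLattice ℝ Λ] (u : V → ℝ)
    (hu : Continuous u) (hp : ∀ l ∈ Λ, ∀ v, u (v + l) = u v) : ∃ C, ∀ v, u v ≤ C := by
  have : FiniteDimensional ℝ V := FiniteDimensional.complexToReal V
  have h := IsZLattice.isCompact_range_of_periodic Λ u hu (fun z w hw => hp w hw z)
  obtain ⟨C, hC⟩ := h.bddAbove
  exact ⟨C, fun v => hC ⟨v, rfl⟩⟩

section

variable {T : V →L[ℂ] V}

lemma q_add (hT : IsSelfAdjoint T) (v w : V) :
    (inner ℂ (v + w) (T (v + w))).re =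
      (inner ℂ v (T v)).re + 2 * (inner ℂ w (T v)).re + (inner ℂ w (T w)).re := by
  rw [map_add, inner_add_left, inner_add_right, inner_add_right]
  have h := inner_comm_T hT v w
  rw [h]
  simp only [add_re, Complex.conj_re]
  ring

omit [FiniteDimensional ℂ V] in
lemma q_smul (z : ℂ) (v : V) :
    (inner ℂ (z • v) (T (z • v))).re = ‖z‖ ^ 2 * (inner ℂ v (T v)).re := by
  rw [map_smul, inner_smul_left, inner_smul_right, ← mul_assoc, ← Complex.normSq_eq_conj_mul_self,
    Complex.re_ofReal_mul, Complex.normSq_eq_norm_sq]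

end

variable {Γ : Subgroup (V ≃ᵃ[ℂ] V)} {Λ : Submodule ℤ V} {e : (V ≃ᵃ[ℂ] V) → V → ℂ}
  {T : V →L[ℂ] V} {χ : V → ℂ}

lemma norm_normal (h : IsFactor Γ Λ e T χ) {l : V} (hl : l ∈ Λ) (v : V) :
    ‖e (AffineEquiv.constVAdd ℂ V l) v‖ =
      Real.exp (Real.pi * (inner ℂ l (T v)).re + Real.pi / 2 * (inner ℂ l (T l)).re) := by
  rw [h.normal l hl, norm_mul, h.norm_one l hl, one_mul, Complex.norm_exp]
  congr 1
  rw [Complex.add_re, show (Real.pi : ℂ) / 2 = ((Real.pi / 2 : ℝ) : ℂ) by push_cast; rfl,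
    Complex.re_ofReal_mul, Complex.re_ofReal_mul]

/-- The growth of sections. -/
lemma section_bound [DiscreteTopology Λ] [IsZLattice ℝ Λ] (h : IsFactor Γ Λ e T χ) (m : ℕ)
    {f : V → ℂ} (hf : Continuous f)
    (hs : ∀ l ∈ Λ, ∀ v, f (v + l) = e (AffineEquiv.constVAdd ℂ V l) v ^ m * f v) :
    ∃ C, ∀ v, ‖f v‖ ≤ C * Real.exp (Real.pi * m / 2 * (inner ℂ v (T v)).re) := by
  obtain ⟨C, hC⟩ := periodic_bounded Λ
    (fun v => ‖f v‖ * Real.exp (-(Real.pi * m / 2 * (inner ℂ v (T v)).re)))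
    (by fun_prop)
    (by
      intro l hl v
      rw [hs l hl, norm_mul, norm_pow, norm_normal h hl, q_add h.selfAdjoint, ← Real.exp_nat_mul]
      rw [mul_comm (Real.exp _) ‖f v‖, mul_assoc, ← Real.exp_add]
      congr 2
      ring)
  refine ⟨C, fun v => ?_⟩
  have := hC v
  rw [Real.exp_neg, ← div_eq_mul_inv, div_le_iff₀ (Real.exp_pos _)] at this
  exact this

/-- A globally generated power forces the form to be nonnegative. -/
theorem nef_of_globallyGenerated [DiscreteTopology Λ] [IsZLattice ℝ Λ] (hU : IsUnif Γ Λ)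
    (h : IsFactor Γ Λ e T χ) {m : ℕ} (hm : 1 ≤ m) (hg : GG Γ e m) (v₀ : V) :
    0 ≤ (inner ℂ v₀ (T v₀)).re := by
  by_contra hneg
  push Not at hneg
  obtain ⟨f, ⟨hf1, hf2⟩, hf3⟩ := hg 0
  obtain ⟨C, hC⟩ := section_bound h m hf1.continuous (fun l hl v => by
    have := hf2 _ ((hU.mem_iff l).1 hl) v
    rw [AffineEquiv.constVAdd_apply, vadd_eq_add, add_comm] at this
    exact this)
  apply hf3
  have hz := liouville_gauss (h := fun z : ℂ => f (z • v₀)) (C := C) (B := 0)
    (D := Real.pi * m / 2 * (-(inner ℂ v₀ (T v₀)).re))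
    (hf1.comp (differentiable_id.smul_const v₀))
    (by
      have hm' : (0 : ℝ) < m := by exact_mod_cast hm
      have := Real.pi_pos
      have h1 : 0 < -(inner ℂ v₀ (T v₀)).re := by linarith
      positivity)
    (by
      intro z
      refine (hC _).trans (le_of_eq ?_)
      rw [q_smul]
      congr 2
      ring)
  have := hz 0
  simpa using this

/-- A globally generated power forces the character to be torsion on the kernel. -/
theorem torsion_of_globallyGenerated [DiscreteTopology Λ] [IsZLattice ℝ Λ] (hU : IsUnif Γ Λ)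
    (h : IsFactor Γ Λ e T χ) {m : ℕ} (hg : GG Γ e m) {l : V} (hl : l ∈ Λ) (hTl : T l = 0) :
    χ l ^ m = 1 := by
  obtain ⟨f, ⟨hf1, hf2⟩, hf3⟩ := hg 0
  have hs : ∀ l ∈ Λ, ∀ v, f (v + l) = e (AffineEquiv.constVAdd ℂ V l) v ^ m * f v :=
    fun l hl v => by
      have := hf2 _ ((hU.mem_iff l).1 hl) v
      rw [AffineEquiv.constVAdd_apply, vadd_eq_add, add_comm] at this
      exact this
  obtain ⟨C, hC⟩ := section_bound h m hf1.continuous hs
  have hd : Differentiable ℂ (fun z : ℂ => f (z • l)) := hf1.comp (differentiable_id.smul_const l)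
  have hb : Bornology.IsBounded (range (fun z : ℂ => f (z • l))) := by
    rw [isBounded_iff_forall_norm_le]
    refine ⟨C, ?_⟩
    rintro _ ⟨z, rfl⟩
    have := hC (z • l)
    rw [q_smul, hTl, inner_zero_right] at this
    simpa using this
  have h1 := hd.apply_eq_apply_of_bounded hb 1 0
  simp only [one_smul, zero_smul] at h1
  have h2 := hs l hl 0
  rw [zero_add, h1, h.normal l hl, hTl, map_zero, inner_zero_right, mul_zero,
    mul_zero, add_zero, Complex.exp_zero, mul_one] at h2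
  have h3 : (1 : ℂ) * f 0 = χ l ^ m * f 0 := by rw [one_mul]; exact h2
  exact (mul_right_cancel₀ hf3 h3).symm

/-- The relation between the values at translates. -/
lemma factor_translate (hU : IsUnif Γ Λ) (h : IsFactor Γ Λ e T χ) {γ : V ≃ᵃ[ℂ] V} (hγ : γ ∈ Γ)
    {l : V} (hl : l ∈ Λ) : γ.linear l ∈ Λ ∧ ∀ v,
    e γ (v + l) * e (AffineEquiv.constVAdd ℂ V l) v =
      e (AffineEquiv.constVAdd ℂ V (γ.linear l)) (γ v) * e γ v := by
  have h1 : γ * AffineEquiv.constVAdd ℂ V l = AffineEquiv.constVAdd ℂ V (γ.linear l) * γ := by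
    apply AffineEquiv.ext
    intro v
    rw [AffineEquiv.coe_mul, AffineEquiv.coe_mul, Function.comp_apply, Function.comp_apply,
      AffineEquiv.constVAdd_apply, AffineEquiv.constVAdd_apply, AffineEquiv.map_vadd]
  have hlΓ := (hU.mem_iff l).1 hl
  have h2 : γ.linear l ∈ Λ := by
    rw [hU.mem_iff]
    have : AffineEquiv.constVAdd ℂ V (γ.linear l) = γ * AffineEquiv.constVAdd ℂ V l * γ⁻¹ := by
      rw [h1, mul_inv_cancel_right]
    rw [this]
    exact Γ.mul_mem (Γ.mul_mem hγ hlΓ) (Γ.inv_mem hγ)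
  refine ⟨h2, fun v => ?_⟩
  have h3 := h.cocycle γ hγ _ hlΓ v
  have h4 := h.cocycle _ ((hU.mem_iff _).1 h2) γ hγ v
  rw [h1, h4] at h3
  rw [h3, AffineEquiv.constVAdd_apply, vadd_eq_add, add_comm]

omit [FiniteDimensional ℂ V] in
lemma linear_decomp (γ : V ≃ᵃ[ℂ] V) (v : V) : γ v = γ.linear v + γ 0 := by
  have := γ.map_vadd 0 v
  simpa using this

/-- The shape of the factors: the form is invariant, and the factor is an exponential. -/
theorem factor_shape [DiscreteTopology Λ] [IsZLattice ℝ Λ] (hU : IsUnif Γ Λ)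
    (h : IsFactor Γ Λ e T χ) {γ : V ≃ᵃ[ℂ] V} (hγ : γ ∈ Γ) (v : V) :
    (inner ℂ (γ.linear v) (T (γ.linear v))).re = (inner ℂ v (T v)).re ∧
      e γ v = e γ 0 * cexp (Real.pi * inner ℂ (T (γ 0)) (γ.linear v)) := by
  set A : V →L[ℂ] V := LinearMap.toContinuousLinearMap (γ.linear : V →ₗ[ℂ] V) with hA
  have hAv : ∀ w, γ.linear w = A w := fun w => rfl
  have hc : Continuous (e γ) := (h.holo γ hγ).continuous
  set w : V → ℝ := fun v => Real.pi / 2 * ((inner ℂ (A v) (T (A v))).re - (inner ℂ v (T v)).re) +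
    Real.pi * (inner ℂ (A v) (T (γ 0))).re with hw
  have hwc : Continuous w := by
    rw [hw]; fun_prop
  have hper : ∀ l ∈ Λ, ∀ v, ‖e γ (v + l)‖ * Real.exp (-w (v + l)) = ‖e γ v‖ * Real.exp (-w v) := by
    intro l hl v
    obtain ⟨h1, h2⟩ := factor_translate hU h hγ hl
    have h3 := congrArg norm (h2 v)
    rw [norm_mul, norm_mul, norm_normal h hl, norm_normal h h1, linear_decomp γ v, hAv, hAv,
      map_add, inner_add_right, Complex.add_re] at h3
    have h4 : ‖e γ (v + l)‖ = Real.exp (Real.pi * ((inner ℂ (A l) (T (A v))).re +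
        (inner ℂ (A l) (T (γ 0))).re) + Real.pi / 2 * (inner ℂ (A l) (T (A l))).re) *
        ‖e γ v‖ * Real.exp (-(Real.pi * (inner ℂ l (T v)).re + Real.pi / 2 *
          (inner ℂ l (T l)).re)) := by
      rw [← h3, mul_assoc, ← Real.exp_add, add_neg_cancel, Real.exp_zero, mul_one]
    rw [h4, mul_comm (Real.exp _) ‖e γ v‖, mul_assoc, mul_assoc, ← Real.exp_add, ← Real.exp_add]
    congr 2
    rw [hw]
    simp only
    rw [map_add A, q_add h.selfAdjoint, q_add h.selfAdjoint, inner_add_left, Complex.add_re]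
    ring
  obtain ⟨C, hC⟩ := periodic_bounded Λ (fun v => ‖e γ v‖ * Real.exp (-w v)) (by fun_prop) hper
  have hne := h.ne_zero γ hγ
  obtain ⟨C', hC'⟩ := periodic_bounded Λ (fun v => (‖e γ v‖ * Real.exp (-w v))⁻¹)
    (by
      apply Continuous.inv₀ (by fun_prop)
      intro v
      exact (mul_pos (norm_pos_iff.2 (hne v)) (Real.exp_pos _)).ne')
    (fun l hl v => by rw [hper l hl v])
  -- restriction to the line through `v`
  set s : ℝ := (inner ℂ (A v) (T (A v))).re - (inner ℂ v (T v)).re with hs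
  set c : ℂ := Real.pi * inner ℂ (T (γ 0)) (A v) with hcdef
  have hwz : ∀ z : ℂ, w (z • v) = Real.pi / 2 * s * ‖z‖ ^ 2 + (z * c).re := by
    intro z
    rw [hw, hs, hcdef]
    simp only
    rw [map_smul A, q_smul, q_smul, inner_smul_left]
    have h1 : inner ℂ (A v) (T (γ 0)) = (starRingEnd ℂ) (inner ℂ (T (γ 0)) (A v)) :=
      (inner_conj_symm _ _).symm
    rw [h1, ← map_mul, Complex.conj_re]
    have h2 : (z * (Real.pi * inner ℂ (T (γ 0)) (A v))).re =
        Real.pi * (z * inner ℂ (T (γ 0)) (A v)).re := by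
      rw [← mul_assoc, mul_comm z, mul_assoc, Complex.re_ofReal_mul]
    rw [h2]
    ring
  set H : ℂ → ℂ := fun z => e γ (z • v) * cexp (-(z * c)) with hH
  have hHd : Differentiable ℂ H := by
    apply Differentiable.mul
    · exact (h.holo γ hγ).comp (differentiable_id.smul_const v)
    · fun_prop
  have hHne : ∀ z, H z ≠ 0 := fun z => mul_ne_zero (hne _) (Complex.exp_ne_zero _)
  have hHn : ∀ z, ‖H z‖ = (‖e γ (z • v)‖ * Real.exp (-w (z • v))) *
      Real.exp (Real.pi / 2 * s * ‖z‖ ^ 2) := by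
    intro z
    rw [hH]
    simp only
    rw [norm_mul, Complex.norm_exp, hwz, mul_assoc, ← Real.exp_add, Complex.neg_re]
    congr 2
    ring
  have hup : ∀ z, ‖H z‖ ≤ C * Real.exp (Real.pi / 2 * s * ‖z‖ ^ 2) := by
    intro z
    rw [hHn]
    have := hC (z • v)
    gcongr
  have hlow : ∀ z, ‖(H z)⁻¹‖ ≤ C' * Real.exp (-(Real.pi / 2 * s * ‖z‖ ^ 2)) := by
    intro z
    rw [norm_inv, hHn, mul_inv, ← Real.exp_neg (Real.pi / 2 * s * ‖z‖ ^ 2)]
    exact mul_le_mul_of_nonneg_right (hC' (z • v)) (Real.exp_pos _).le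
  have hs0 : s = 0 := by
    rcases lt_trichotomy s 0 with hlt | heq | hgt
    · exfalso
      apply hHne 0
      refine liouville_gauss hHd (C := C) (B := 0) (D := Real.pi / 2 * (-s)) ?_ ?_ 0
      · have := Real.pi_pos
        have h1 : 0 < -s := by linarith
        positivity
      · intro z
        refine (hup z).trans (le_of_eq ?_)
        congr 2
        ring
    · exact heq
    · exfalso
      apply inv_ne_zero (hHne 0)
      refine liouville_gauss (h := fun z => (H z)⁻¹) (hHd.inv hHne) (C := C') (B := 0)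
        (D := Real.pi / 2 * s) ?_ ?_ 0
      · have := Real.pi_pos
        positivity
      · intro z
        refine (hlow z).trans (le_of_eq ?_)
        congr 2
        ring
  refine ⟨by rw [hAv]; linarith, ?_⟩
  have hb : Bornology.IsBounded (range H) := by
    rw [isBounded_iff_forall_norm_le]
    refine ⟨C, ?_⟩
    rintro _ ⟨z, rfl⟩
    have := hup z
    rw [hs0] at this
    simpa using this
  have h1 := hHd.apply_eq_apply_of_bounded hb 1 0
  rw [hH] at h1
  simp only [one_smul, zero_smul, one_mul, zero_mul, neg_zero, Complex.exp_zero, mul_one] at h1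
  rw [← h1, mul_assoc, hAv, ← hcdef, ← Complex.exp_add, neg_add_cancel, Complex.exp_zero, mul_one]

/-- Invariance of the kernel and of the character. -/
lemma char_invariant [DiscreteTopology Λ] [IsZLattice ℝ Λ] (hU : IsUnif Γ Λ)
    (h : IsFactor Γ Λ e T χ) (hn : ∀ v, 0 ≤ (inner ℂ v (T v)).re)
    {γ : V ≃ᵃ[ℂ] V} (hγ : γ ∈ Γ) {l : V} (hl : l ∈ Λ) (hTl : T l = 0) :
    γ.linear l ∈ Λ ∧ T (γ.linear l) = 0 ∧ χ (γ.linear l) = χ l := by
  obtain ⟨P, hP⟩ := exists_sqrt h.selfAdjoint hn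
  obtain ⟨h1, h2⟩ := factor_translate hU h hγ hl
  obtain ⟨h3, h4⟩ := factor_shape hU h hγ l
  have h5 : T (γ.linear l) = 0 := by
    rw [hTl, inner_zero_right, Complex.zero_re, hP, inner_self_eq_norm_sq_to_K] at h3
    have h6 : P (γ.linear l) = 0 := by
      rw [← norm_eq_zero]
      have h7 : (‖P (γ.linear l)‖ : ℝ) ^ 2 = 0 := by
        rw [← h3]
        norm_cast
      exact pow_eq_zero_iff (two_ne_zero) |>.1 h7
    have h7 : ∀ v, inner ℂ (T (γ.linear l)) v = 0 := by
      intro v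
      have := h.selfAdjoint.isSymmetric (γ.linear l) v
      refine this.trans ?_
      show inner ℂ (γ.linear l) (T v) = 0
      rw [hP, h6, inner_zero_left]
    exact inner_self_eq_zero.1 (h7 _)
  refine ⟨h1, h5, ?_⟩
  have h6 := h2 0
  have hT2 : inner ℂ (T (γ 0)) (γ.linear l) = 0 := by
    have := h.selfAdjoint.isSymmetric (γ 0) (γ.linear l)
    refine this.trans ?_
    show inner ℂ (γ 0) (T (γ.linear l)) = 0
    rw [h5, inner_zero_right]
  have hT3 : inner ℂ (γ.linear l) (T (γ 0)) = 0 := by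
    rw [← inner_conj_symm, hT2, map_zero]
  rw [zero_add, h4, h.normal l hl, h.normal _ h1, hT2, hTl, map_zero, h5, inner_zero_right,
    inner_zero_right, hT3] at h6
  simp only [mul_zero, add_zero, Complex.exp_zero, mul_one] at h6
  have hne := h.ne_zero γ hγ 0
  have h7 : χ (γ.linear l) * e γ 0 = χ l * e γ 0 := by rw [← h6, mul_comm]
  exact mul_right_cancel₀ hne h7

/-- If no nonzero vector is fixed by the linear parts, then the character is torsion on the
kernel. -/
theorem torsion_of_no_fixed [DiscreteTopology Λ] [IsZLattice ℝ Λ] (hU : IsUnif Γ Λ)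
    (h : IsFactor Γ Λ e T χ) (hn : ∀ v, 0 ≤ (inner ℂ v (T v)).re)
    (hfix : ∀ v : V, (∀ A ∈ linearParts Γ, A v = v) → v = 0) {l : V} (hl : l ∈ Λ)
    (hTl : T l = 0) : χ l ^ Nat.card (linearParts Γ) = 1 := by
  classical
  have := hU.fin
  let _ : Fintype (linearParts Γ) := Fintype.ofFinite _
  have hinv : ∀ A : linearParts Γ, (A : V ≃ₗ[ℂ] V) l ∈ Λ ∧ T ((A : V ≃ₗ[ℂ] V) l) = 0 ∧
      χ ((A : V ≃ₗ[ℂ] V) l) = χ l := by
    intro A
    obtain ⟨γ, hγ, hA⟩ := Subgroup.mem_map.1 A.2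
    have := char_invariant hU h hn hγ hl hTl
    rw [← hA]
    exact this
  have hχ0 : χ 0 = 1 := by
    have h1 := h.char_add hU Λ.zero_mem Λ.zero_mem
    rw [add_zero, map_zero, inner_zero_right, Complex.zero_im, Complex.ofReal_zero, mul_zero,
      Complex.exp_zero, mul_one] at h1
    have h2 := h.char_ne_zero Λ.zero_mem
    have h3 : χ 0 * χ 0 = 1 * χ 0 := by rw [one_mul]; exact h1.symm
    exact mul_right_cancel₀ h2 h3
  have hS : ∀ F : Finset (linearParts Γ), (∑ A ∈ F, (A : V ≃ₗ[ℂ] V) l) ∈ Λ ∧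
      χ (∑ A ∈ F, (A : V ≃ₗ[ℂ] V) l) = χ l ^ F.card ∧
      T (∑ A ∈ F, (A : V ≃ₗ[ℂ] V) l) = 0 := by
    intro F
    induction F using Finset.induction_on with
    | empty => simp [hχ0]
    | insert B F hB ih =>
      obtain ⟨i1, i2, i3⟩ := ih
      obtain ⟨j1, j2, j3⟩ := hinv B
      rw [Finset.sum_insert hB, Finset.card_insert_of_notMem hB]
      refine ⟨Λ.add_mem j1 i1, ?_, by rw [map_add, j2, i3, add_zero]⟩
      rw [h.char_add hU j1 i1, i3, inner_zero_right, Complex.zero_im, Complex.ofReal_zero,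
        mul_zero, Complex.exp_zero, mul_one, j3, i2, pow_succ]
      ring
  obtain ⟨-, k2, -⟩ := hS Finset.univ
  have h0 : (∑ A : linearParts Γ, (A : V ≃ₗ[ℂ] V) l) = 0 := by
    apply hfix
    intro B hB
    rw [map_sum]
    exact Equiv.sum_comp (Equiv.mulLeft (⟨B, hB⟩ : linearParts Γ))
      (fun A : linearParts Γ => (A : V ≃ₗ[ℂ] V) l)
  rw [h0, hχ0, Finset.card_univ, ← Nat.card_eq_fintype_card] at k2
  exact k2.symm

end Pool.Agent.V7H52.TQ
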