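import Mathlib

set_option autoImplicit false

open Complex Metric Set Filter Topology

namespace Pool.Agent.V7H52.TQ

/-- An absolutely convergent trigonometric series on an additive group whose frequencies, except
for the zero frequency of the index `i0`, take the value `1/2`, does not vanish identically. -/
lemma exists_ne_zero {ι V : Type*} [AddCommGroup V] (c : ι → ℂ) (hc : Summable (fun i => ‖c i‖))
    (l : ι → V → ℝ) (hadd : ∀ i q r, l i (q + r) = l i q + l i r) (i0 : ι)
    (h0 : ∀ q, l i0 q = 0) (hc0 : c i0 ≠ 0) (hne : ∀ i, i ≠ i0 → ∃ q, l i q = 1 / 2) :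
    ∃ q, ∑' i, c i * cexp (2 * Real.pi * I * l i q) ≠ 0 := by
  classical
  by_contra hcon
  push Not at hcon
  have hexp : ∀ i q, ‖cexp (2 * Real.pi * I * l i q)‖ = 1 := by
    intro i q
    rw [show (2 : ℂ) * Real.pi * I * l i q = ((2 * Real.pi * l i q : ℝ) : ℂ) * I by push_cast; ring]
    exact Complex.norm_exp_ofReal_mul_I _
  have key : ∀ F : Finset ι, i0 ∉ F → ∃ w : ι → ℂ, w i0 = 1 ∧ (∀ i, ‖w i‖ ≤ 1) ∧
      (∀ i ∈ F, w i = 0) ∧ ∀ q, ∑' i, c i * w i * cexp (2 * Real.pi * I * l i q) = 0 := by
    intro F
    induction F using Finset.induction_on with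
    | empty =>
      intro _
      refine ⟨fun _ => 1, rfl, fun _ => by simp, by simp, fun q => ?_⟩
      simpa using hcon q
    | insert z F hz ih =>
      intro hi0
      rw [Finset.mem_insert, not_or] at hi0
      obtain ⟨w, w0, w1, wF, ws⟩ := ih hi0.2
      obtain ⟨r, hr⟩ := hne z (Ne.symm hi0.1)
      refine ⟨fun i => w i * ((1 + cexp (2 * Real.pi * I * l i r)) / 2), ?_, ?_, ?_, ?_⟩
      · simp only [w0, h0]
        simp
      · intro i
        rw [norm_mul, norm_div]
        have h1 : ‖1 + cexp (2 * Real.pi * I * l i r)‖ ≤ 2 := by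
          refine (norm_add_le _ _).trans ?_
          rw [hexp]; simp; norm_num
        have h2 : ‖(2 : ℂ)‖ = 2 := by simp
        rw [h2]
        have h3 := w1 i
        have h4 : ‖1 + cexp (2 * Real.pi * I * l i r)‖ / 2 ≤ 1 := by linarith
        calc ‖w i‖ * (‖1 + cexp (2 * Real.pi * I * l i r)‖ / 2) ≤ 1 * 1 := by
              gcongr
          _ = 1 := one_mul 1
      · intro i hi
        rw [Finset.mem_insert] at hi
        rcases hi with hi | hi
        · subst hi
          have : cexp (2 * Real.pi * I * l i r) = -1 := by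
            rw [hr, show (2 : ℂ) * Real.pi * I * ((1 / 2 : ℝ) : ℂ) = Real.pi * I by push_cast; ring]
            exact Complex.exp_pi_mul_I
          simp [this]
        · simp [wF i hi]
      · intro q
        have hsum : ∀ q, Summable (fun i => c i * w i * cexp (2 * Real.pi * I * l i q)) := by
          intro q
          refine Summable.of_norm_bounded hc ?_
          intro i
          rw [norm_mul, norm_mul, hexp, mul_one]
          have := w1 i
          have h5 := norm_nonneg (c i)
          nlinarith
        have e1 := ws q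
        have e2 := ws (q + r)
        have e3 : ∀ i, c i * (w i * ((1 + cexp (2 * Real.pi * I * l i r)) / 2)) *
            cexp (2 * Real.pi * I * l i q) =
            (1 / 2 : ℂ) * (c i * w i * cexp (2 * Real.pi * I * l i q) +
              c i * w i * cexp (2 * Real.pi * I * l i (q + r))) := by
          intro i
          rw [hadd, show (2 : ℂ) * Real.pi * I * ((l i q + l i r : ℝ) : ℂ) =
            2 * Real.pi * I * l i q + 2 * Real.pi * I * l i r by push_cast; ring, Complex.exp_add]
          ring
        simp only [e3]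
        rw [tsum_mul_left, (hsum q).tsum_add (hsum (q + r)), e1, e2]
        simp
  have hlim := tendsto_tsum_compl_atTop_zero (fun i => ‖c i‖)
  have hpos : 0 < ‖c i0‖ := norm_pos_iff.2 hc0
  have hev := (hlim.eventually (gt_mem_nhds hpos)).and (eventually_ge_atTop ({i0} : Finset ι))
  obtain ⟨s, hs1, hs2⟩ := hev.exists
  have hi0s : i0 ∈ s := hs2 (Finset.mem_singleton_self _)
  obtain ⟨w, w0, w1, wF, ws⟩ := key (s.erase i0) (Finset.notMem_erase _ _)
  have e0 := ws 0
  have el : ∀ i, l i 0 = 0 := by
    intro i
    have := hadd i 0 0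
    simp only [add_zero] at this
    linarith
  simp only [el] at e0
  simp only [ofReal_zero, mul_zero, Complex.exp_zero, mul_one] at e0
  have hb : Summable (fun i => c i * w i) := by
    refine Summable.of_norm_bounded hc ?_
    intro i
    rw [norm_mul]
    have := w1 i
    have h5 := norm_nonneg (c i)
    nlinarith
  have e1 := hb.sum_add_tsum_subtype_compl s
  rw [e0] at e1
  have e2 : ∑ x ∈ s, c x * w x = c i0 := by
    rw [← Finset.add_sum_erase _ _ hi0s, w0, mul_one]
    rw [Finset.sum_eq_zero, add_zero]
    intro x hx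
    rw [wF x hx, mul_zero]
  rw [e2] at e1
  have e3 : ‖∑' x : {x // x ∉ s}, c x * w x‖ ≤ ∑' x : {x // x ∉ s}, ‖c x‖ := by
    have hs' : Summable (fun x : {x // x ∉ s} => ‖c x‖) := hc.subtype _
    refine tsum_of_norm_bounded hs'.hasSum ?_
    intro i
    rw [norm_mul]
    have := w1 i
    have h5 := norm_nonneg (c i)
    nlinarith
  have e4 : ‖c i0‖ = ‖∑' x : {x // x ∉ s}, c x * w x‖ := by
    have : c i0 = -∑' x : {x // x ∉ s}, c x * w x := by linear_combination e1
    rw [this, norm_neg]
  linarith

end Pool.Agent.V7H52.TQ
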