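import Pool.Agent.V7H52.TQ.Factor

set_option autoImplicit false

open Complex Metric Set Filter Topology

namespace Pool.Agent.V7H52.TQ

variable {V : Type*} [NormedAddCommGroup V] [InnerProductSpace ℂ V]

/-- The complement of the zero set of a nonzero entire function is dense. -/
lemma dense_ne_zero {f : V → ℂ} (hf : Differentiable ℂ f) (h : ∃ v, f v ≠ 0) :
    Dense {v | f v ≠ 0} := by
  by_contra hd
  rw [dense_iff_inter_open] at hd
  push Not at hd
  obtain ⟨U, hU, ⟨c, hc⟩, hUe⟩ := hd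
  obtain ⟨v, hv⟩ := h
  apply hv
  let g : ℂ → ℂ := fun z => f (c + z • (v - c))
  have hg : Differentiable ℂ g := by
    apply hf.comp
    exact (differentiable_const c).add (differentiable_id.smul_const (v - c))
  have hcont : Continuous (fun z : ℂ => c + z • (v - c)) := by fun_prop
  have hev : g =ᶠ[𝓝 (0 : ℂ)] fun _ => 0 := by
    have h1 : (fun z : ℂ => c + z • (v - c)) ⁻¹' U ∈ 𝓝 (0 : ℂ) := by
      apply hcont.continuousAt.preimage_mem_nhds
      simpa using hU.mem_nhds hc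
    filter_upwards [h1] with z hz
    by_contra hne
    have : c + z • (v - c) ∈ U ∩ {v | f v ≠ 0} := ⟨hz, hne⟩
    rw [hUe] at this
    exact this
  have han : AnalyticOnNhd ℂ g univ := fun z _ => hg.analyticAt z
  have hz : AnalyticOnNhd ℂ (fun _ : ℂ => (0 : ℂ)) univ := fun z _ => analyticAt_const
  have := han.eq_of_eventuallyEq hz hev
  have h1 := congrFun this 1
  simpa [g] using h1

section

variable {Γ : Subgroup (V ≃ᵃ[ℂ] V)} {Λ : Submodule ℤ V} {e : (V ≃ᵃ[ℂ] V) → V → ℂ}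

/-- The translate of a function by an element of the group. -/
noncomputable def phi (e : (V ≃ᵃ[ℂ] V) → V → ℂ) (k : ℕ) (f : V → ℂ) (γ : V ≃ᵃ[ℂ] V) (v : V) : ℂ :=
  (e γ v ^ k)⁻¹ * f (γ v)

lemma phi_mul (hc : ∀ γ ∈ Γ, ∀ δ ∈ Γ, ∀ v, e (γ * δ) v = e γ (δ v) * e δ v)
    (hne : ∀ γ ∈ Γ, ∀ v, e γ v ≠ 0) (k : ℕ) (f : V → ℂ) {γ δ : V ≃ᵃ[ℂ] V} (hγ : γ ∈ Γ)
    (hδ : δ ∈ Γ) (v : V) : phi e k f γ (δ v) = e δ v ^ k * phi e k f (γ * δ) v := by
  unfold phi
  rw [hc γ hγ δ hδ v, AffineEquiv.coe_mul, Function.comp_apply, mul_pow, mul_inv]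
  have := pow_ne_zero k (hne δ hδ v)
  field_simp

lemma eq_of_linear_eq (hU : IsUnif Γ Λ) {γ γ' : V ≃ᵃ[ℂ] V} (hγ : γ ∈ Γ) (hγ' : γ' ∈ Γ)
    (h : AffineEquiv.linearHom γ = AffineEquiv.linearHom γ') :
    ∃ l ∈ Λ, γ' = AffineEquiv.constVAdd ℂ V l * γ := by
  have h1 : AffineEquiv.constVAdd ℂ V (γ' 0 - γ 0) * γ = γ' := by
    apply AffineEquiv.ext
    intro v
    have e1 : γ v = γ.linear v + γ 0 := by
      have := γ.map_vadd 0 v
      simpa using this
    have e2 : γ' v = γ'.linear v + γ' 0 := by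
      have := γ'.map_vadd 0 v
      simpa using this
    have e3 : γ.linear = γ'.linear := h
    rw [AffineEquiv.coe_mul, Function.comp_apply, AffineEquiv.constVAdd_apply, e1, e2, e3,
      vadd_eq_add]
    abel
  refine ⟨γ' 0 - γ 0, ?_, h1.symm⟩
  rw [hU.mem_iff]
  have : AffineEquiv.constVAdd ℂ V (γ' 0 - γ 0) = γ' * γ⁻¹ := by
    rw [eq_mul_inv_iff_mul_eq, h1]
  rw [this]
  exact Γ.mul_mem hγ' (Γ.inv_mem hγ)

lemma phi_congr (hU : IsUnif Γ Λ)
    (hc : ∀ γ ∈ Γ, ∀ δ ∈ Γ, ∀ v, e (γ * δ) v = e γ (δ v) * e δ v)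
    (hne : ∀ γ ∈ Γ, ∀ v, e γ v ≠ 0) (k : ℕ) (f : V → ℂ)
    (hf : ∀ l ∈ Λ, ∀ v, f (v + l) = e (AffineEquiv.constVAdd ℂ V l) v ^ k * f v)
    {γ γ' : V ≃ᵃ[ℂ] V} (hγ : γ ∈ Γ) (hγ' : γ' ∈ Γ)
    (h : AffineEquiv.linearHom γ = AffineEquiv.linearHom γ') (v : V) :
    phi e k f γ v = phi e k f γ' v := by
  obtain ⟨l, hl, rfl⟩ := eq_of_linear_eq hU hγ hγ' h
  have hlΓ := (hU.mem_iff l).1 hl
  unfold phi
  rw [hc _ hlΓ _ hγ v, AffineEquiv.coe_mul, Function.comp_apply, AffineEquiv.constVAdd_apply,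
    vadd_eq_add, add_comm l, hf l hl]
  have n1 := pow_ne_zero k (hne _ hlΓ (γ v))
  have n2 := pow_ne_zero k (hne _ hγ v)
  rw [mul_pow, mul_inv]
  field_simp

/-- The norm of a theta function for the lattice is a section for the group. -/
lemma exists_norm (hU : IsUnif Γ Λ) (ho : ∀ γ ∈ Γ, Differentiable ℂ (e γ))
    (hc : ∀ γ ∈ Γ, ∀ δ ∈ Γ, ∀ v, e (γ * δ) v = e γ (δ v) * e δ v)
    (hne : ∀ γ ∈ Γ, ∀ v, e γ v ≠ 0) (hdiff : ∀ γ : V ≃ᵃ[ℂ] V, Differentiable ℂ γ) (k : ℕ)
    (g : linearParts Γ → (V ≃ᵃ[ℂ] V)) (hg : ∀ A, g A ∈ Γ)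
    (hgl : ∀ A, AffineEquiv.linearHom (g A) = A)
    (f : V → ℂ) (hfd : Differentiable ℂ f)
    (hf : ∀ l ∈ Λ, ∀ v, f (v + l) = e (AffineEquiv.constVAdd ℂ V l) v ^ k * f v) :
    ∃ F : V → ℂ, IsSection Γ e (k * Nat.card (linearParts Γ)) F ∧
      ∀ v, (∀ A, f (g A v) ≠ 0) → F v ≠ 0 := by
  classical
  have := hU.fin
  let _ : Fintype (linearParts Γ) := Fintype.ofFinite _
  refine ⟨fun v => ∏ A : linearParts Γ, phi e k f (g A) v, ⟨?_, ?_⟩, ?_⟩
  · have h1 : ∀ A ∈ (Finset.univ : Finset (linearParts Γ)),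
        Differentiable ℂ (fun v => phi e k f (g A) v) := by
      intro A _
      unfold phi
      refine Differentiable.mul ?_ (hfd.comp (hdiff _))
      exact ((ho _ (hg A)).pow k).inv (fun v => pow_ne_zero k (hne _ (hg A) v))
    have h2 : ∀ S : Finset (linearParts Γ),
        Differentiable ℂ (fun v => ∏ A ∈ S, phi e k f (g A) v) := by
      intro S
      induction S using Finset.induction_on with
      | empty => simp
      | insert B S hB ih =>
        simp only [Finset.prod_insert hB]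
        exact (h1 B (Finset.mem_univ _)).mul ih
    exact h2 _
  · intro δ hδ v
    have h1 : ∀ A : linearParts Γ, phi e k f (g A) (δ v) =
        e δ v ^ k * phi e k f (g (A * ⟨AffineEquiv.linearHom δ, Subgroup.mem_map_of_mem _ hδ⟩)) v := by
      intro A
      rw [phi_mul hc hne k f (hg A) hδ v]
      congr 1
      apply phi_congr hU hc hne k f hf (Γ.mul_mem (hg A) hδ) (hg _)
      rw [map_mul, hgl, hgl]
      rfl
    simp only [h1]
    rw [Finset.prod_mul_distrib, Finset.prod_const, Finset.card_univ, ← Nat.card_eq_fintype_card,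
      ← pow_mul]
    congr 1
    exact Equiv.prod_comp (Equiv.mulRight (⟨AffineEquiv.linearHom δ,
      Subgroup.mem_map_of_mem _ hδ⟩ : linearParts Γ)) (fun A => phi e k f (g A) v)
  · intro v hv
    rw [Finset.prod_ne_zero_iff]
    intro A _
    unfold phi
    exact mul_ne_zero (inv_ne_zero (pow_ne_zero k (hne _ (hg A) v))) (hv A)

lemma exists_lifts (Γ : Subgroup (V ≃ᵃ[ℂ] V)) :
    ∃ g : linearParts Γ → (V ≃ᵃ[ℂ] V), (∀ A, g A ∈ Γ) ∧
      ∀ A, AffineEquiv.linearHom (g A) = A := by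
  have h : ∀ A : linearParts Γ, ∃ γ ∈ Γ, AffineEquiv.linearHom γ = A := fun A =>
    Subgroup.mem_map.1 A.2
  choose g hg hgl using h
  exact ⟨g, hg, hgl⟩

end

variable [FiniteDimensional ℂ V]

lemma differentiable_affineEquiv (γ : V ≃ᵃ[ℂ] V) : Differentiable ℂ γ := by
  have h : (γ : V → V) = fun v => γ.linear v + γ 0 := by
    funext v
    have := γ.map_vadd 0 v
    simpa using this
  rw [h]
  have h2 : Differentiable ℂ (fun v => γ.linear v) :=
    (LinearMap.toContinuousLinearMap (γ.linear : V →ₗ[ℂ] V)).differentiable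
  exact h2.add_const _

variable {Γ : Subgroup (V ≃ᵃ[ℂ] V)} {Λ : Submodule ℤ V} {e : (V ≃ᵃ[ℂ] V) → V → ℂ}
  {T : V →L[ℂ] V} {χ : V → ℂ}

/-- The criterion, one direction, with an explicit exponent. -/
theorem IsFactor.globallyGenerated [DiscreteTopology Λ] [IsZLattice ℝ Λ]
    (hU : IsUnif Γ Λ) (h : IsFactor Γ Λ e T χ)
    (hn : ∀ v, 0 ≤ (inner ℂ v (T v)).re) {m : ℕ} (hm : 1 ≤ m)
    (hker : ∀ l ∈ Λ, T l = 0 → χ l ^ m = 1) :
    GG Γ e (2 * m * Nat.card (linearParts Γ)) := by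
  classical
  intro p
  obtain ⟨f, hf1, hf2, hf3⟩ := h.exists_theta hU hn hm hker
  obtain ⟨g, hg, hgl⟩ := exists_lifts Γ
  have hfin := hU.fin
  -- a good translate
  have hd : ∀ i : linearParts Γ × Bool,
      Dense {a : V | f (if i.2 then g i.1 p + a else g i.1 p - a) ≠ 0} := by
    rintro ⟨A, b⟩
    obtain ⟨v, hv⟩ := hf2
    cases b with
    | true =>
      refine dense_ne_zero (f := fun a => f (g A p + a)) ?_ ⟨v - g A p, ?_⟩
      · exact hf1.comp ((differentiable_const _).add differentiable_id)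
      · simpa using hv
    | false =>
      refine dense_ne_zero (f := fun a => f (g A p - a)) ?_ ⟨g A p - v, ?_⟩
      · exact hf1.comp ((differentiable_const _).sub differentiable_id)
      · simpa using hv
  have ho : ∀ i : linearParts Γ × Bool,
      IsOpen {a : V | f (if i.2 then g i.1 p + a else g i.1 p - a) ≠ 0} := by
    rintro ⟨A, b⟩
    have hc := hf1.continuous
    cases b with
    | true => exact isOpen_ne_fun (f := fun a => f (g A p + a)) (by fun_prop) continuous_const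
    | false => exact isOpen_ne_fun (f := fun a => f (g A p - a)) (by fun_prop) continuous_const
  have : CompleteSpace V := FiniteDimensional.complete ℂ V
  obtain ⟨a, ha⟩ := (dense_iInter_of_isOpen ho hd).nonempty
  rw [mem_iInter] at ha
  have ha1 : ∀ A, f (g A p + a) ≠ 0 := fun A => by simpa using ha (A, true)
  have ha2 : ∀ A, f (g A p - a) ≠ 0 := fun A => by simpa using ha (A, false)
  obtain ⟨F, hF, hFv⟩ := exists_norm hU h.holo h.cocycle h.ne_zero differentiable_affineEquiv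
    (2 * m) g hg hgl (fun v => f (v + a) * f (v - a))
    ((hf1.comp (differentiable_id.add_const a)).mul (hf1.comp (differentiable_id.sub_const a)))
    (by
      intro l hl v
      have e1 : v + l + a = (v + a) + l := by abel
      have e2 : v + l - a = (v - a) + l := by abel
      rw [e1, e2, hf3 l hl, hf3 l hl, h.normal l hl]
      rw [map_add, map_sub, inner_add_right, inner_sub_right]
      set α := inner ℂ l (T v)
      set β := inner ℂ l (T a)
      set κ := inner ℂ l (T l)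
      have e3 : cexp (Real.pi * (α + β) + Real.pi / 2 * κ) *
          cexp (Real.pi * (α - β) + Real.pi / 2 * κ) =
          cexp (Real.pi * α + Real.pi / 2 * κ) ^ 2 := by
        rw [← Complex.exp_add, ← Complex.exp_nat_mul]
        congr 1
        push_cast
        ring
      calc (χ l * cexp (Real.pi * (α + β) + Real.pi / 2 * κ)) ^ m * f (v + a) *
            ((χ l * cexp (Real.pi * (α - β) + Real.pi / 2 * κ)) ^ m * f (v - a))
          = (χ l ^ 2 * (cexp (Real.pi * (α + β) + Real.pi / 2 * κ) *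
              cexp (Real.pi * (α - β) + Real.pi / 2 * κ))) ^ m * (f (v + a) * f (v - a)) := by ring
        _ = _ := by rw [e3, pow_mul]; ring)
  exact ⟨F, hF, hFv p (fun A => mul_ne_zero (ha1 A) (ha2 A))⟩

end Pool.Agent.V7H52.TQ
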