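import Mathlib

set_option autoImplicit false

open Complex Metric Set Filter Topology

namespace Pool.Agent.V7H52.TQ

variable {V : Type*} [NormedAddCommGroup V] [InnerProductSpace ℂ V]

/-- The exponent of the Gaussian term. -/
noncomputable def ex (q x y : V) : ℂ :=
  -(Real.pi : ℂ) * inner ℂ x y - ((Real.pi / 2 * ‖x‖ ^ 2 : ℝ) : ℂ) + (Real.pi : ℂ) * inner ℂ q (y + x)
    - ((Real.pi / 2 * ‖q‖ ^ 2 : ℝ) : ℂ)

lemma re_ex (q x y : V) :
    (ex q x y).re = Real.pi / 2 * ‖y‖ ^ 2 - Real.pi / 2 * ‖y + x - q‖ ^ 2 := by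
  have h1 : ‖y + x - q‖ ^ 2 = ‖y + x‖ ^ 2 - 2 * (inner ℂ (y + x) q).re + ‖q‖ ^ 2 := by
    exact norm_sub_sq (𝕜 := ℂ) (y + x) q
  have h2 : ‖y + x‖ ^ 2 = ‖y‖ ^ 2 + 2 * (inner ℂ y x).re + ‖x‖ ^ 2 := by
    exact norm_add_sq (𝕜 := ℂ) y x
  have h3 : (inner ℂ (y + x) q).re = (inner ℂ q (y + x)).re := by
    rw [← inner_conj_symm q (y + x), Complex.conj_re]
  have h4 : (inner ℂ y x).re = (inner ℂ x y).re := by
    rw [← inner_conj_symm x y, Complex.conj_re]
  have h5 : (ex q x y).re = -Real.pi * (inner ℂ x y).re - Real.pi / 2 * ‖x‖ ^ 2 +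
      Real.pi * (inner ℂ q (y + x)).re - Real.pi / 2 * ‖q‖ ^ 2 := by
    simp only [ex, sub_re, add_re, neg_mul, neg_re, re_ofReal_mul, ofReal_re]
  rw [h5, h1, h2, h3, h4]
  ring

lemma norm_exp_ex (q x y : V) :
    ‖cexp (ex q x y)‖ = Real.exp (Real.pi / 2 * ‖y‖ ^ 2 - Real.pi / 2 * ‖y + x - q‖ ^ 2) := by
  rw [Complex.norm_exp, re_ex]

lemma norm_exp_ex_le (q x y : V) {R : ℝ} (hy : ‖y‖ ≤ R) :
    ‖cexp (ex q x y)‖ ≤ Real.exp (Real.pi / 2 * R ^ 2 + Real.pi / 2 * (R + ‖q‖) ^ 2) *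
      Real.exp (-(Real.pi / 4) * ‖x‖ ^ 2) := by
  rw [norm_exp_ex, ← Real.exp_add, Real.exp_le_exp]
  have hR : 0 ≤ R := (norm_nonneg _).trans hy
  have h1 : ‖x‖ ≤ ‖y + x - q‖ + (R + ‖q‖) := by
    have : x = (y + x - q) + (q - y) := by abel
    calc ‖x‖ = ‖(y + x - q) + (q - y)‖ := by rw [← this]
      _ ≤ ‖y + x - q‖ + ‖q - y‖ := norm_add_le _ _
      _ ≤ ‖y + x - q‖ + (R + ‖q‖) := by
          have := norm_sub_le q y
          linarith
  have h2 : ‖x‖ ^ 2 ≤ 2 * ‖y + x - q‖ ^ 2 + 2 * (R + ‖q‖) ^ 2 := by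
    have h0 := norm_nonneg x
    have : ‖x‖ ^ 2 ≤ (‖y + x - q‖ + (R + ‖q‖)) ^ 2 := by
      apply pow_le_pow_left₀ h0 h1
    nlinarith [sq_nonneg (‖y + x - q‖ - (R + ‖q‖))]
  have h3 : ‖y‖ ^ 2 ≤ R ^ 2 := pow_le_pow_left₀ (norm_nonneg _) hy 2
  have hpi := Real.pi_pos
  nlinarith

section summability

variable [FiniteDimensional ℂ V]

lemma summable_gauss (L : Submodule ℤ V) [DiscreteTopology L] {c : ℝ} (hc : 0 < c) :
    Summable (fun x : L => (1 + ‖(x : V)‖) * Real.exp (-c * ‖(x : V)‖ ^ 2)) := by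
  have : FiniteDimensional ℝ V := FiniteDimensional.complexToReal V
  obtain ⟨N, hN⟩ : ∃ N : ℕ, Module.finrank ℤ L < N := ⟨_, Nat.lt_succ_self _⟩
  have hs := ZLattice.summable_norm_pow_inv L N hN
  set C : ℝ := 2 + 2 * (N + 1).factorial / c ^ (N + 1) with hC
  have hCpos : 0 < C := by positivity
  refine Summable.of_norm_bounded_eventually (g := fun x : L => C * ‖(x : V)‖⁻¹ ^ N)
    (hs.mul_left C) ?_
  rw [Filter.eventually_cofinite]
  refine Set.Finite.subset (Set.finite_singleton (0 : L)) ?_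
  intro x hx
  by_contra hx0
  apply hx
  have hpos : 0 < ‖(x : V)‖ := by
    rw [norm_pos_iff]
    intro h
    apply hx0
    simpa using h
  set t := ‖(x : V)‖ with ht
  rw [Real.norm_eq_abs, abs_of_nonneg (by positivity), inv_pow]
  rw [← div_eq_mul_inv, le_div_iff₀ (by positivity)]
  by_cases h1 : t ≤ 1
  · have e1 : Real.exp (-c * t ^ 2) ≤ 1 := by
      rw [Real.exp_le_one_iff]
      nlinarith [sq_nonneg t]
    have e2 : t ^ N ≤ 1 := pow_le_one₀ hpos.le h1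
    have e3 : (1 + t) * Real.exp (-c * t ^ 2) * t ^ N ≤ 2 * 1 * 1 := by
      gcongr
      linarith
    have e4 : 0 ≤ 2 * ((N + 1).factorial : ℝ) / c ^ (N + 1) := by positivity
    linarith
  · push Not at h1
    have e1 : (c * t ^ 2) ^ (N + 1) / (N + 1).factorial ≤ Real.exp (c * t ^ 2) :=
      Real.pow_div_factorial_le_exp _ (by positivity) _
    have e2 : Real.exp (-c * t ^ 2) ≤ (N + 1).factorial / (c * t ^ 2) ^ (N + 1) := by
      rw [show -c * t ^ 2 = -(c * t ^ 2) by ring, Real.exp_neg, inv_le_comm₀ (Real.exp_pos _)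
        (by positivity), inv_div]
      exact e1
    have e3 : (1 + t) * t ^ N ≤ 2 * t ^ (2 * (N + 1)) := by
      have : t ^ (N + 1) ≤ t ^ (2 * (N + 1)) := pow_le_pow_right₀ h1.le (by lia)
      have h' : (1 + t) * t ^ N ≤ 2 * t ^ (N + 1) := by
        rw [pow_succ]
        nlinarith [pow_pos hpos N]
      linarith
    calc (1 + t) * Real.exp (-c * t ^ 2) * t ^ N
        = (1 + t) * t ^ N * Real.exp (-c * t ^ 2) := by ring
      _ ≤ 2 * t ^ (2 * (N + 1)) * ((N + 1).factorial / (c * t ^ 2) ^ (N + 1)) := by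
          gcongr
      _ = 2 * (N + 1).factorial / c ^ (N + 1) := by
          rw [mul_pow, ← pow_mul]
          field_simp
      _ ≤ C := by rw [hC]; linarith

/-- The theta series. -/
noncomputable def theta (L : Submodule ℤ V) (a : V → ℂ) (q y : V) : ℂ :=
  ∑' x : L, a x * cexp (ex q x y)

lemma summable_theta (L : Submodule ℤ V) [DiscreteTopology L] (a : V → ℂ)
    (ha : ∀ x ∈ L, ‖a x‖ ≤ 1) (q y : V) : Summable (fun x : L => a x * cexp (ex q x y)) := by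
  refine Summable.of_norm_bounded (g := fun x : L =>
    Real.exp (Real.pi / 2 * ‖y‖ ^ 2 + Real.pi / 2 * (‖y‖ + ‖q‖) ^ 2) *
      ((1 + ‖(x : V)‖) * Real.exp (-(Real.pi / 4) * ‖(x : V)‖ ^ 2)))
    ((summable_gauss L (by positivity)).mul_left _) ?_
  intro x
  rw [norm_mul]
  have h1 := norm_exp_ex_le q (x : V) y le_rfl
  calc ‖a x‖ * ‖cexp (ex q x y)‖ ≤ 1 * ‖cexp (ex q x y)‖ := by
        gcongr
        exact ha _ x.2
    _ = ‖cexp (ex q x y)‖ := one_mul _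
    _ ≤ _ := h1
    _ ≤ _ := by
      gcongr
      have : 0 ≤ ‖(x : V)‖ := norm_nonneg _
      have h2 := Real.exp_pos (-(Real.pi / 4) * ‖(x : V)‖ ^ 2)
      nlinarith

omit [FiniteDimensional ℂ V] in
lemma hasFDerivAt_term (a : ℂ) (q x y : V) :
    HasFDerivAt (fun y => a * cexp (ex q x y))
      ((a * cexp (ex q x y)) • (-(Real.pi : ℂ) • innerSL ℂ x + (Real.pi : ℂ) • innerSL ℂ q)) y := by
  have h1 : HasFDerivAt (fun y => ex q x y)
      (-(Real.pi : ℂ) • innerSL ℂ x + (Real.pi : ℂ) • innerSL ℂ q) y := by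
    have e1 : HasFDerivAt (fun y => inner ℂ x y) (innerSL ℂ x) y := (innerSL ℂ x).hasFDerivAt
    have e2 : HasFDerivAt (fun y => inner ℂ q (y + x)) (innerSL ℂ q) y := by
      have : (fun y => inner ℂ q (y + x)) = fun y => inner ℂ q y + inner ℂ q x := by
        funext z; rw [inner_add_right]
      rw [this]
      exact ((innerSL ℂ q).hasFDerivAt).add_const _
    have e3 := (((e1.const_mul (-(Real.pi : ℂ))).sub_const
      ((Real.pi / 2 * ‖x‖ ^ 2 : ℝ) : ℂ)).add (e2.const_mul (Real.pi : ℂ))).sub_const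
      ((Real.pi / 2 * ‖q‖ ^ 2 : ℝ) : ℂ)
    exact e3
  have h2 := (h1.cexp).const_mul a
  rw [smul_smul] at h2
  exact h2

lemma differentiable_theta (L : Submodule ℤ V) [DiscreteTopology L] (a : V → ℂ)
    (ha : ∀ x ∈ L, ‖a x‖ ≤ 1) (q : V) : Differentiable ℂ (theta L a q) := by
  intro y₀
  set R : ℝ := ‖y₀‖ + 1 with hR
  have hu : Summable (fun x : L =>
      (Real.pi * (1 + ‖q‖)) * (Real.exp (Real.pi / 2 * R ^ 2 + Real.pi / 2 * (R + ‖q‖) ^ 2) *
      ((1 + ‖(x : V)‖) * Real.exp (-(Real.pi / 4) * ‖(x : V)‖ ^ 2)))) :=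
    ((summable_gauss L (by positivity)).mul_left _).mul_left _
  have hy₀ : y₀ ∈ ball (0 : V) R := by
    rw [mem_ball_zero_iff]
    linarith
  have key := hasFDerivAt_tsum_of_isPreconnected (𝕜 := ℂ) (α := L) (E := V) (F := ℂ)
    (f := fun x y => a x * cexp (ex q x y))
    (f' := fun x y => (a x * cexp (ex q x y)) •
      (-(Real.pi : ℂ) • innerSL ℂ (x : V) + (Real.pi : ℂ) • innerSL ℂ q))
    (s := ball (0 : V) R) (x₀ := y₀) (x := y₀) hu isOpen_ball
    (convex_ball (0 : V) R).isPreconnected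
    (fun x y _ => hasFDerivAt_term _ _ _ _) ?_ hy₀ (summable_theta L a ha q y₀) hy₀
  · exact key.differentiableAt
  · intro x y hy
    rw [mem_ball_zero_iff] at hy
    rw [norm_smul, norm_mul]
    have h1 := norm_exp_ex_le q (x : V) y hy.le
    have h2 : ‖-(Real.pi : ℂ) • innerSL ℂ (x : V) + (Real.pi : ℂ) • innerSL ℂ q‖ ≤
        (Real.pi * (1 + ‖q‖)) * (1 + ‖(x : V)‖) := by
      refine (norm_add_le _ _).trans ?_
      rw [norm_smul, norm_smul, innerSL_apply_norm, innerSL_apply_norm, norm_neg,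
        Complex.norm_real, Real.norm_eq_abs, abs_of_pos Real.pi_pos]
      have := Real.pi_pos
      have hx := norm_nonneg (x : V)
      have hq := norm_nonneg q
      nlinarith [mul_nonneg hx hq, mul_nonneg this.le (mul_nonneg hx hq),
        mul_nonneg this.le hx, mul_nonneg this.le hq]
    have h3 : ‖a x‖ ≤ 1 := ha _ x.2
    calc ‖a x‖ * ‖cexp (ex q x y)‖ *
        ‖-(Real.pi : ℂ) • innerSL ℂ (x : V) + (Real.pi : ℂ) • innerSL ℂ q‖
        ≤ 1 * (Real.exp (Real.pi / 2 * R ^ 2 + Real.pi / 2 * (R + ‖q‖) ^ 2) *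
          Real.exp (-(Real.pi / 4) * ‖(x : V)‖ ^ 2)) *
          ((Real.pi * (1 + ‖q‖)) * (1 + ‖(x : V)‖)) := by
          gcongr
      _ = _ := by ring

omit [FiniteDimensional ℂ V] in
/-- The shift formula. -/
lemma theta_add (L : Submodule ℤ V) (a : V → ℂ) (q y : V) (μ : V) (hμ : μ ∈ L) (c : ℂ)
    (h : ∀ x ∈ L, a (x - μ) * cexp (Real.pi * I * (inner ℂ μ x).im) = a x * c) :
    theta L a q (y + μ) =
      c * cexp (Real.pi * inner ℂ μ y + ((Real.pi / 2 * ‖μ‖ ^ 2 : ℝ) : ℂ)) * theta L a q y := by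
  have e1 : theta L a q (y + μ) = ∑' x : L, a ((x : V) - μ) * cexp (ex q ((x : V) - μ) (y + μ)) := by
    unfold theta
    rw [← (Equiv.subRight (⟨μ, hμ⟩ : L)).tsum_eq]
    rfl
  rw [e1]
  unfold theta
  rw [← tsum_mul_left]
  apply tsum_congr
  intro x
  have e2 : ex q ((x : V) - μ) (y + μ) = ex q (x : V) y + (Real.pi * inner ℂ μ y +
      ((Real.pi / 2 * ‖μ‖ ^ 2 : ℝ) : ℂ)) + Real.pi * I * (inner ℂ μ (x : V)).im := by
    have i1 : ((‖(x : V) - μ‖ ^ 2 : ℝ) : ℂ) = ((‖(x : V)‖ ^ 2 : ℝ) : ℂ) - inner ℂ (x : V) μ -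
        inner ℂ μ (x : V) + ((‖μ‖ ^ 2 : ℝ) : ℂ) := by
      have h0 : ∀ z : V, ((‖z‖ ^ 2 : ℝ) : ℂ) = inner ℂ z z := by
        intro z
        rw [inner_self_eq_norm_sq_to_K]
        simp
      rw [h0, h0, h0, inner_sub_left, inner_sub_right, inner_sub_right]
      ring
    have i2 : (Real.pi : ℂ) * I * (inner ℂ μ (x : V)).im =
        (Real.pi / 2 : ℂ) * (inner ℂ μ (x : V) - inner ℂ (x : V) μ) := by
      rw [← inner_conj_symm (x : V) μ, Complex.sub_conj]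
      push_cast
      ring
    have i3 : ((‖μ‖ ^ 2 : ℝ) : ℂ) = inner ℂ μ μ := by
      rw [inner_self_eq_norm_sq_to_K]
      simp
    have i4 : y + μ + ((x : V) - μ) = y + (x : V) := by abel
    simp only [ex]
    rw [i4, i2]
    push_cast at i1 i3 ⊢
    rw [i1, i3, inner_sub_left, inner_add_right, inner_add_right]
    ring
  rw [e2, Complex.exp_add, Complex.exp_add]
  have := h x x.2
  calc a (↑x - μ) * (cexp (ex q (↑x) y) *
        cexp (↑Real.pi * inner ℂ μ y + ((Real.pi / 2 * ‖μ‖ ^ 2 : ℝ) : ℂ)) *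
        cexp (↑Real.pi * I * (inner ℂ μ (x : V)).im))
      = (a (↑x - μ) * cexp (↑Real.pi * I * (inner ℂ μ (x : V)).im)) *
        cexp (↑Real.pi * inner ℂ μ y + ((Real.pi / 2 * ‖μ‖ ^ 2 : ℝ) : ℂ)) *
        cexp (ex q (↑x) y) := by ring
    _ = _ := by rw [this]; ring

omit [FiniteDimensional ℂ V] in
/-- The value of the series at its own centre. -/
lemma theta_self (L : Submodule ℤ V) (a : V → ℂ) (q : V) :
    theta L a q q = cexp ((Real.pi / 2 * ‖q‖ ^ 2 : ℝ) : ℂ) *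
      ∑' x : L, (a x * Real.exp (-(Real.pi / 2) * ‖(x : V)‖ ^ 2)) *
        cexp (2 * Real.pi * I * (inner ℂ q (x : V)).im) := by
  unfold theta
  rw [← tsum_mul_left]
  apply tsum_congr
  intro x
  have e : ex q (x : V) q = ((Real.pi / 2 * ‖q‖ ^ 2 : ℝ) : ℂ) +
      ((-(Real.pi / 2) * ‖(x : V)‖ ^ 2 : ℝ) : ℂ) + 2 * Real.pi * I * (inner ℂ q (x : V)).im := by
    have i2 : (2 : ℂ) * Real.pi * I * (inner ℂ q (x : V)).im =
        Real.pi * (inner ℂ q (x : V) - inner ℂ (x : V) q) := by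
      rw [← inner_conj_symm (x : V) q, Complex.sub_conj]
      push_cast
      ring
    have i3 : ((‖q‖ ^ 2 : ℝ) : ℂ) = inner ℂ q q := by
      rw [inner_self_eq_norm_sq_to_K]
      simp
    simp only [ex]
    rw [i2]
    push_cast at i3 ⊢
    rw [inner_add_right, i3]
    ring
  rw [e, Complex.exp_add, Complex.exp_add, ← Complex.ofReal_exp (-(Real.pi / 2) * ‖(x : V)‖ ^ 2)]
  ring

end summability

end Pool.Agent.V7H52.TQ
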