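import Pool.Agent.V7H52.TQ.Series
import Pool.Agent.V7H52.TQ.NonVan

set_option autoImplicit false

open Complex Metric Set Filter Topology

namespace Pool.Agent.V7H52.TQ

variable {V : Type*} [NormedAddCommGroup V] [InnerProductSpace ℂ V] [FiniteDimensional ℂ V]

/-- The image of a lattice. -/
def image (Λ : Submodule ℤ V) (P : V →L[ℂ] V) : Submodule ℤ V :=
  Λ.map P.toLinearMap.toAddMonoidHom.toIntLinearMap

omit [FiniteDimensional ℂ V] in
lemma mem_image (Λ : Submodule ℤ V) (P : V →L[ℂ] V) (x : V) :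
    x ∈ image Λ P ↔ ∃ l ∈ Λ, P l = x := Iff.rfl

lemma discrete_image (Λ : Submodule ℤ V) [DiscreteTopology Λ] [IsZLattice ℝ Λ] (P : V →L[ℂ] V)
    (hint : ∀ l ∈ Λ, ∀ m ∈ Λ, ∃ k : ℤ, (inner ℂ (P l) (P m)).im = k) :
    DiscreteTopology (image Λ P) := by
  have : FiniteDimensional ℝ V := FiniteDimensional.complexToReal V
  have := ZLattice.module_free ℝ Λ
  have := ZLattice.module_finite ℝ Λ
  let b := (Module.Free.chooseBasis ℤ Λ).ofZLatticeBasis ℝ Λ
  have hb : ∀ i, b i ∈ Λ := by
    intro i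
    rw [Module.Basis.ofZLatticeBasis_apply]
    exact (Module.Free.chooseBasis ℤ Λ i).2
  set S : ℝ := ∑ i, ‖P (b i)‖ with hS
  have hS0 : 0 ≤ S := Finset.sum_nonneg fun i _ => norm_nonneg _
  refine DiscreteTopology.of_forall_le_norm (r := 1 / (1 + S)) (by positivity) ?_
  intro x hx
  by_contra hlt
  push Not at hlt
  apply hx
  obtain ⟨l, hl, hlx⟩ := (mem_image Λ P _).1 x.2
  have hz : ∀ i, (inner ℂ (P l) (P (b i))).im = 0 := by
    intro i
    obtain ⟨k, hk⟩ := hint l hl (b i) (hb i)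
    have h1 : |(inner ℂ (P l) (P (b i))).im| < 1 := by
      have h2 := Complex.abs_im_le_norm (inner ℂ (P l) (P (b i)))
      have h3 := norm_inner_le_norm (𝕜 := ℂ) (P l) (P (b i))
      have h4 : ‖P (b i)‖ ≤ S :=
        Finset.single_le_sum (f := fun i => ‖P (b i)‖) (fun j _ => norm_nonneg _)
          (Finset.mem_univ i)
      have h5 : ‖P l‖ < 1 / (1 + S) := by
        rw [hlx]
        simpa using hlt
      have h6 : ‖P l‖ * ‖P (b i)‖ ≤ 1 / (1 + S) * S := by
        gcongr
      have h7 : 1 / (1 + S) * S < 1 := by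
        rw [one_div, inv_mul_lt_iff₀ (by positivity)]
        linarith
      linarith
    rw [hk] at h1 ⊢
    have h2 : |k| < 1 := by exact_mod_cast h1
    have : k = 0 := Int.abs_lt_one_iff.1 h2
    simp [this]
  have hz2 : ∀ v, (inner ℂ (P l) (P v)).im = 0 := by
    intro v
    let φ : V →ₗ[ℝ] ℝ :=
      { toFun := fun v => (inner ℂ (P l) (P v)).im
        map_add' := fun a b => by simp
        map_smul' := fun r a => by
          have : P (r • a) = (r : ℂ) • P a := by
            rw [← map_smul]; simp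
          rw [this, inner_smul_right]
          simp }
    have hφ : φ = 0 := by
      apply b.ext
      intro i
      simpa [φ] using hz i
    have := LinearMap.congr_fun hφ v
    simpa [φ] using this
  have h0 : inner ℂ (P l) (P l) = 0 := by
    apply Complex.ext
    · have := hz2 (I • l)
      rw [map_smul, inner_smul_right] at this
      simpa using this
    · simpa using hz2 l
  rw [inner_self_eq_zero] at h0
  ext
  rw [← hlx, h0]
  rfl

/-- Existence of a nonzero theta function. -/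
lemma exists_section (Λ : Submodule ℤ V) [DiscreteTopology Λ] [IsZLattice ℝ Λ] (P : V →L[ℂ] V)
    (hint : ∀ l ∈ Λ, ∀ m ∈ Λ, ∃ k : ℤ, (inner ℂ (P l) (P m)).im = k)
    (χ : V → ℂ) (hχ : ∀ l ∈ Λ, ‖χ l‖ = 1)
    (hmul : ∀ l ∈ Λ, ∀ m ∈ Λ, χ (l + m) = χ l * χ m *
      cexp (Real.pi * I * (inner ℂ (P l) (P m)).im))
    (hker : ∀ l ∈ Λ, P l = 0 → χ l = 1) :
    ∃ f : V → ℂ, Differentiable ℂ f ∧ (∃ v, f v ≠ 0) ∧ ∀ l ∈ Λ, ∀ v,
      f (v + l) = χ l * cexp (Real.pi * inner ℂ (P l) (P v) + ((Real.pi / 2 * ‖P l‖ ^ 2 : ℝ) : ℂ)) *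
        f v := by
  classical
  have hdisc := discrete_image Λ P hint
  set a : V → ℂ := fun x => if h : ∃ l ∈ Λ, P l = x then (χ h.choose)⁻¹ else 0 with ha
  have hne : ∀ l ∈ Λ, χ l ≠ 0 := by
    intro l hl h
    have := hχ l hl
    rw [h, norm_zero] at this
    exact zero_ne_one this
  have haP : ∀ l ∈ Λ, a (P l) = (χ l)⁻¹ := by
    intro l hl
    have hex : ∃ l' ∈ Λ, P l' = P l := ⟨l, hl, rfl⟩
    have h1 : a (P l) = (χ hex.choose)⁻¹ := by
      rw [ha]; exact dif_pos hex
    rw [h1]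
    obtain ⟨h2, h3⟩ := hex.choose_spec
    set l' := hex.choose with hl'
    have h4 : P (l' - l) = 0 := by rw [map_sub, h3, sub_self]
    have h5 := hmul l hl (l' - l) (Λ.sub_mem h2 hl)
    rw [hker _ (Λ.sub_mem h2 hl) h4, h4, inner_zero_right] at h5
    simp only [add_sub_cancel, mul_one, zero_im, ofReal_zero, mul_zero, Complex.exp_zero] at h5
    rw [h5]
  have hale : ∀ x ∈ image Λ P, ‖a x‖ ≤ 1 := by
    rintro x hx
    obtain ⟨l, hl, rfl⟩ := (mem_image Λ P x).1 hx
    rw [haP l hl, norm_inv, hχ l hl, inv_one]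
  have ha0 : a 0 = 1 := by
    have := haP 0 Λ.zero_mem
    rw [map_zero] at this
    rw [this, hker 0 Λ.zero_mem (map_zero P), inv_one]
  -- the nonvanishing
  obtain ⟨q0, hq0⟩ := exists_ne_zero (ι := image Λ P) (V := V)
    (fun x => a x * (Real.exp (-(Real.pi / 2) * ‖(x : V)‖ ^ 2) : ℂ))
    (by
      refine Summable.of_norm_bounded (summable_gauss (image Λ P) (c := Real.pi / 2)
        (by positivity)) ?_
      intro x
      rw [norm_norm, norm_mul, Complex.norm_real, Real.norm_eq_abs, abs_of_pos (Real.exp_pos _)]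
      have h1 := hale x x.2
      have h2 := Real.exp_pos (-(Real.pi / 2) * ‖(x : V)‖ ^ 2)
      have h3 := norm_nonneg (x : V)
      have h4 := norm_nonneg (a x)
      have h5 : ‖a x‖ ≤ 1 + ‖(x : V)‖ := by linarith
      gcongr)
    (fun x q => (inner ℂ (P q) (x : V)).im)
    (by
      intro x q r
      simp)
    0
    (by intro q; simp)
    (by
      simp [ha0])
    (by
      intro x hx
      obtain ⟨l, hl, hlx⟩ := (mem_image Λ P _).1 x.2
      have hx0 : (x : V) ≠ 0 := by
        intro h; apply hx; ext; exact h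
      refine ⟨(-(((1 / (2 * ‖(x : V)‖ ^ 2) : ℝ) : ℂ) * I)) • l, ?_⟩
      rw [map_smul, hlx, inner_smul_left, inner_self_eq_norm_sq_to_K]
      have hn : ‖(x : V)‖ ≠ 0 := norm_ne_zero_iff.2 hx0
      have : (starRingEnd ℂ) (-(((1 / (2 * ‖(x : V)‖ ^ 2) : ℝ) : ℂ) * I)) =
          ((1 / (2 * ‖(x : V)‖ ^ 2) : ℝ) : ℂ) * I := by
        rw [map_neg, map_mul, Complex.conj_ofReal, Complex.conj_I]; ring
      rw [this]
      have e : ((1 / (2 * ‖(x : V)‖ ^ 2) : ℝ) : ℂ) * I * ((‖(x : V)‖ : ℂ)) ^ 2 =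
          ((1 / 2 : ℝ) : ℂ) * I := by
        push_cast
        have hn' : ((‖(x : V)‖ : ℝ) : ℂ) ≠ 0 := by exact_mod_cast hn
        field_simp
      erw [e]
      simp)
  have hnz : theta (image Λ P) a (P q0) (P q0) ≠ 0 := by
    rw [theta_self]
    apply mul_ne_zero (Complex.exp_ne_zero _)
    exact hq0
  refine ⟨fun v => theta (image Λ P) a (P q0) (P v), ?_, ⟨q0, hnz⟩, ?_⟩
  · exact (differentiable_theta (image Λ P) a hale (P q0)).comp P.differentiable
  · intro l hl v
    have h := theta_add (image Λ P) a (P q0) (P v) (P l) ((mem_image Λ P _).2 ⟨l, hl, rfl⟩) (χ l)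
      (by
        rintro x hx
        obtain ⟨m, hm, rfl⟩ := (mem_image Λ P x).1 hx
        rw [← map_sub, haP _ (Λ.sub_mem hm hl), haP _ hm]
        have h1 := hmul (m - l) (Λ.sub_mem hm hl) l hl
        rw [sub_add_cancel] at h1
        have h2 : (inner ℂ (P (m - l)) (P l)).im = -(inner ℂ (P l) (P m)).im := by
          rw [map_sub, inner_sub_left]
          have h3 : (inner ℂ (P l) (P l)).im = 0 := by
            rw [inner_self_eq_norm_sq_to_K]
            norm_cast
          rw [Complex.sub_im, h3, sub_zero, ← inner_conj_symm (P m) (P l), Complex.conj_im]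
        rw [h2] at h1
        have n1 := hne _ (Λ.sub_mem hm hl)
        have n2 := hne _ hm
        have n3 := hne _ hl
        have h4 : cexp (Real.pi * I * (inner ℂ (P l) (P m)).im) *
            cexp (Real.pi * I * ((-(inner ℂ (P l) (P m)).im : ℝ) : ℂ)) = 1 := by
          rw [← Complex.exp_add]
          push_cast
          rw [mul_neg, add_neg_cancel, Complex.exp_zero]
        rw [inv_mul_eq_iff_eq_mul₀ n1]
        rw [h1]
        have n4 := Complex.exp_ne_zero (Real.pi * I * ((-(inner ℂ (P l) (P m)).im : ℝ) : ℂ))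
        field_simp
        linear_combination h4)
    show theta (image Λ P) a (P q0) (P (v + l)) = _
    rw [map_add, h]

end Pool.Agent.V7H52.TQ
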