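import Pool.Agent.V7H52.TQ.Card

set_option autoImplicit false

open Complex Metric Set Filter Topology

namespace Pool.Agent.V7H52.TQ

variable {V : Type*} [NormedAddCommGroup V] [InnerProductSpace ℂ V] [FiniteDimensional ℂ V]

/-- A unitary character of a discrete group of vectors is the exponential of a real linear
form. -/
lemma lift_character (M : Submodule ℤ V) [DiscreteTopology M] (χ : V → ℂ)
    (hn : ∀ x ∈ M, ‖χ x‖ = 1) (hmul : ∀ x ∈ M, ∀ y ∈ M, χ (x + y) = χ x * χ y) :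
    ∃ ℓ : V →ₗ[ℝ] ℝ, ∀ x ∈ M, χ x = cexp (((2 * Real.pi * ℓ x : ℝ) : ℂ) * I) := by
  have : FiniteDimensional ℝ V := FiniteDimensional.complexToReal V
  let F := Submodule.span ℝ (M : Set V)
  let f := F.subtype
  let L₀ := M.comap (f.restrictScalars ℤ)
  have : DiscreteTopology L₀ := by
    refine DiscreteTopology.preimage_of_continuous_injective (M : Set V) ?_
      (Submodule.injective_subtype _)
    exact LinearMap.continuous_of_finiteDimensional f
  have : IsZLattice ℝ L₀ := ⟨eq_top_iff.mpr <|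
    Submodule.span_span_coe_preimage.symm.le⟩
  have := ZLattice.module_free ℝ L₀
  have := ZLattice.module_finite ℝ L₀
  let b₀ := Module.Free.chooseBasis ℤ L₀
  let b := b₀.ofZLatticeBasis ℝ L₀
  let θ : Module.Free.ChooseBasisIndex ℤ L₀ → ℝ := fun i => (χ (b i : V)).arg / (2 * Real.pi)
  obtain ⟨g, hg⟩ := (b.constr ℝ θ).exists_extend
  have hne : ∀ x ∈ M, χ x ≠ 0 := by
    intro x hx h0
    have := hn x hx
    rw [h0, norm_zero] at this
    exact zero_ne_one this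
  let c : L₀ →+ Additive ℂˣ := AddMonoidHom.mk' (fun y => Additive.ofMul
    (Units.mk0 (χ ((y : F) : V)) (hne _ y.2))) (by
      intro x y
      apply Additive.toMul.injective
      apply Units.ext
      exact hmul _ x.2 _ y.2)
  let d : L₀ →+ Additive ℂˣ := AddMonoidHom.mk' (fun y => Additive.ofMul
    (Units.mk0 (cexp (((2 * Real.pi * g ((y : F) : V) : ℝ) : ℂ) * I)) (Complex.exp_ne_zero _))) (by
      intro x y
      apply Additive.toMul.injective
      apply Units.ext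
      show cexp _ = cexp _ * cexp _
      rw [← Complex.exp_add]
      congr 1
      have : g (((x + y : L₀) : F) : V) = g ((x : F) : V) + g ((y : F) : V) := by
        rw [← map_add]; rfl
      rw [this]
      push_cast
      ring)
  have hcd : c.toIntLinearMap = d.toIntLinearMap := by
    apply b₀.ext
    intro i
    apply Additive.toMul.injective
    apply Units.ext
    show χ ((b₀ i : F) : V) = cexp (((2 * Real.pi * g ((b₀ i : F) : V) : ℝ) : ℂ) * I)
    have h1 : (b₀ i : F) = b i := (Module.Basis.ofZLatticeBasis_apply ℝ L₀ b₀ i).symm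
    have h2 : g ((b i : F) : V) = θ i := by
      have := LinearMap.congr_fun hg (b i)
      rw [Module.Basis.constr_basis] at this
      exact this
    rw [h1, h2]
    have hmem : (b i : V) ∈ M := by
      rw [← h1]; exact (b₀ i).2
    have h3 : (2 * Real.pi * θ i : ℝ) = (χ (b i : V)).arg := by
      simp only [θ]
      have := Real.pi_pos
      field_simp
    rw [h3]
    have h4 := Complex.norm_mul_exp_arg_mul_I (χ (b i : V))
    rw [hn _ hmem, Complex.ofReal_one, one_mul] at h4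
    exact h4.symm
  refine ⟨g, fun x hx => ?_⟩
  let y : L₀ := ⟨⟨x, Submodule.subset_span hx⟩, hx⟩
  have h5 := LinearMap.congr_fun hcd y
  have h6 := congrArg (fun z => ((Additive.toMul z : ℂˣ) : ℂ)) h5
  exact h6

variable {Γ : Subgroup (V ≃ᵃ[ℂ] V)} {Λ : Submodule ℤ V} {e : (V ≃ᵃ[ℂ] V) → V → ℂ}
  {T : V →L[ℂ] V} {χ : V → ℂ}

/-- The twist of a factor by a flat unitary factor. -/
noncomputable def twist (ℓ : V →ₗ[ℝ] ℝ) (e : (V ≃ᵃ[ℂ] V) → V → ℂ) (γ : V ≃ᵃ[ℂ] V) (v : V) : ℂ :=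
  e γ v * cexp (((2 * Real.pi * ℓ (γ 0) : ℝ) : ℂ) * I)

omit [FiniteDimensional ℂ V] in
lemma twist_cocycle (ℓ : V →ₗ[ℝ] ℝ) {γ δ : V ≃ᵃ[ℂ] V} (hγ : ∀ v, ℓ (γ.linear v) = ℓ v) :
    ℓ ((γ * δ) 0) = ℓ (γ 0) + ℓ (δ 0) := by
  rw [AffineEquiv.coe_mul, Function.comp_apply, linear_decomp γ (δ 0), map_add, hγ, add_comm]

lemma IsFactor.twist (h : IsFactor Γ Λ e T χ) (ℓ : V →ₗ[ℝ] ℝ)
    (hℓ : ∀ A ∈ linearParts Γ, ∀ v, ℓ (A v) = ℓ v) :
    IsFactor Γ Λ (twist ℓ e) T (fun v => χ v * cexp (((2 * Real.pi * ℓ v : ℝ) : ℂ) * I)) := by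
  refine ⟨?_, ?_, ?_, h.selfAdjoint, ?_, ?_⟩
  · intro γ hγ
    exact (h.holo γ hγ).mul_const _
  · intro γ hγ v
    exact mul_ne_zero (h.ne_zero γ hγ v) (Complex.exp_ne_zero _)
  · intro γ hγ δ hδ v
    unfold TQ.twist
    rw [twist_cocycle ℓ (hℓ _ (Subgroup.mem_map_of_mem AffineEquiv.linearHom hγ)),
      h.cocycle γ hγ δ hδ]
    have : cexp (((2 * Real.pi * (ℓ (γ 0) + ℓ (δ 0)) : ℝ) : ℂ) * I) =
        cexp (((2 * Real.pi * ℓ (γ 0) : ℝ) : ℂ) * I) *
        cexp (((2 * Real.pi * ℓ (δ 0) : ℝ) : ℂ) * I) := by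
      rw [← Complex.exp_add]
      congr 1
      push_cast
      ring
    rw [this]
    ring
  · intro l hl
    rw [norm_mul, h.norm_one l hl, one_mul]
    exact Complex.norm_exp_ofReal_mul_I _
  · intro l hl v
    unfold TQ.twist
    rw [h.normal l hl]
    have : (AffineEquiv.constVAdd ℂ V l) 0 = l := by simp
    rw [this]
    ring

/-- Every nonnegative factor has a flat twist whose character is torsion on the kernel. -/
theorem exists_twist [DiscreteTopology Λ] [IsZLattice ℝ Λ] (hU : IsUnif Γ Λ)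
    (h : IsFactor Γ Λ e T χ) (hn : ∀ v, 0 ≤ (inner ℂ v (T v)).re) :
    ∃ ℓ : V →ₗ[ℝ] ℝ, (∀ A ∈ linearParts Γ, ∀ v, ℓ (A v) = ℓ v) ∧
      ∀ l ∈ Λ, T l = 0 →
        (χ l * cexp (((2 * Real.pi * ℓ l : ℝ) : ℂ) * I)) ^ Nat.card (linearParts Γ) = 1 := by
  classical
  have := hU.fin
  let _ : Fintype (linearParts Γ) := Fintype.ofFinite _
  let M : Submodule ℤ V := Λ ⊓ (LinearMap.ker (T : V →ₗ[ℂ] V)).restrictScalars ℤ
  have hM : ∀ x, x ∈ M ↔ x ∈ Λ ∧ T x = 0 := fun x => Iff.rfl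
  have : DiscreteTopology M :=
    DiscreteTopology.of_subset (s := (Λ : Set V)) (t := (M : Set V)) inferInstance
      (fun x hx => ((hM x).1 hx).1)
  obtain ⟨ℓ', hℓ'⟩ := lift_character M χ (fun x hx => h.norm_one x ((hM x).1 hx).1) (by
    intro x hx y hy
    rw [h.char_add hU ((hM x).1 hx).1 ((hM y).1 hy).1, ((hM y).1 hy).2, inner_zero_right,
      Complex.zero_im, Complex.ofReal_zero, mul_zero, Complex.exp_zero, mul_one])
  let Q : V →ₗ[ℂ] V := ∑ A : linearParts Γ, ((A : V ≃ₗ[ℂ] V) : V →ₗ[ℂ] V)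
  have hQ : ∀ v, Q v = ∑ A : linearParts Γ, (A : V ≃ₗ[ℂ] V) v := by
    intro v
    simp [Q]
  have hQinv : ∀ A ∈ linearParts Γ, ∀ v, Q (A v) = Q v := by
    intro B hB v
    rw [hQ, hQ]
    exact Equiv.sum_comp (Equiv.mulRight (⟨B, hB⟩ : linearParts Γ))
      (fun A => (A : V ≃ₗ[ℂ] V) v)
  set g := Nat.card (linearParts Γ) with hg
  have hgpos : (g : ℝ) ≠ 0 := by
    have : g ≠ 0 := Nat.card_pos.ne'
    exact_mod_cast this
  have hQc : ∀ l ∈ Λ, T l = 0 → Q l ∈ M ∧ χ (Q l) = χ l ^ g := by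
    intro l hl hTl
    have hinv : ∀ A : linearParts Γ, (A : V ≃ₗ[ℂ] V) l ∈ Λ ∧ T ((A : V ≃ₗ[ℂ] V) l) = 0 ∧
        χ ((A : V ≃ₗ[ℂ] V) l) = χ l := by
      intro A
      obtain ⟨γ, hγ, hA⟩ := Subgroup.mem_map.1 A.2
      have := char_invariant hU h hn hγ hl hTl
      rw [← hA]
      exact this
    have hχ0 : χ 0 = 1 := by
      have h1 := h.char_add hU Λ.zero_mem Λ.zero_mem
      rw [add_zero, map_zero, inner_zero_right, Complex.zero_im, Complex.ofReal_zero, mul_zero,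
        Complex.exp_zero, mul_one] at h1
      have h2 := h.char_ne_zero Λ.zero_mem
      have h3 : χ 0 * χ 0 = 1 * χ 0 := by rw [one_mul]; exact h1.symm
      exact mul_right_cancel₀ h2 h3
    have hS : ∀ F : Finset (linearParts Γ), (∑ A ∈ F, (A : V ≃ₗ[ℂ] V) l) ∈ Λ ∧
        χ (∑ A ∈ F, (A : V ≃ₗ[ℂ] V) l) = χ l ^ F.card ∧
        T (∑ A ∈ F, (A : V ≃ₗ[ℂ] V) l) = 0 := by
      intro F
      induction F using Finset.induction_on with
      | empty => simp [hχ0]
      | insert B F hB ih =>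
        obtain ⟨i1, i2, i3⟩ := ih
        obtain ⟨j1, j2, j3⟩ := hinv B
        rw [Finset.sum_insert hB, Finset.card_insert_of_notMem hB]
        refine ⟨Λ.add_mem j1 i1, ?_, by rw [map_add, j2, i3, add_zero]⟩
        rw [h.char_add hU j1 i1, i3, inner_zero_right, Complex.zero_im, Complex.ofReal_zero,
          mul_zero, Complex.exp_zero, mul_one, j3, i2, pow_succ]
        ring
    obtain ⟨k1, k2, k3⟩ := hS Finset.univ
    rw [← hQ] at k1 k2 k3
    refine ⟨(hM _).2 ⟨k1, k3⟩, ?_⟩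
    rw [k2, Finset.card_univ, hg, Nat.card_eq_fintype_card]
  refine ⟨(-(1 / (g : ℝ))) • (ℓ'.comp (Q.restrictScalars ℝ)), ?_, ?_⟩
  · intro A hA v
    simp only [LinearMap.smul_apply, LinearMap.comp_apply, LinearMap.restrictScalars_apply,
      hQinv A hA]
  · intro l hl hTl
    obtain ⟨k1, k2⟩ := hQc l hl hTl
    rw [mul_pow, ← k2, hℓ' _ k1, ← Complex.exp_nat_mul, ← Complex.exp_add]
    rw [Complex.exp_eq_one_iff]
    refine ⟨0, ?_⟩
    have e1 : ((-(1 / (g : ℝ))) • (ℓ'.comp (Q.restrictScalars ℝ))) l = -(1 / (g : ℝ)) * ℓ' (Q l) :=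
      rfl
    rw [e1]
    have hgc : (g : ℂ) ≠ 0 := by exact_mod_cast hgpos
    push_cast
    field_simp
    ring

end Pool.Agent.V7H52.TQ
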